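import Pool.Agent.BLK.Num

/-!
# BLK/NumB: the inequality for nearly balanced block models (module BLK-NumB)

`bl_num3`: the bound `(k/e) (q (1 - q)) ^ (-(k - 1)/4)` for `q = 1/2 - g` with `g = 3.05 LL / k + 4.1 om ≤ 0.0075` is at most
`exp (10 (log M)^2 / k + 800 k om^2)` times its value at `q = 1/2`, up to a factor near 1.  `bl_num4`: `1 - 1/k^2` is near 1.
-/

namespace Pool.Agent.BLK

open Filter

theorem bl_num3 {ε : ℝ} (hε : 0 < ε) : ∀ᶠ k : ℕ in atTop, ∀ (M : ℕ) (om : ℝ), 1 ≤ M →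
    Real.log M ≤ k / 1000 → 0 ≤ om → om ≤ 1 / 1000 →
    9 / 25 ≤ 1 / 2 - (305 / 100 * LL k M / k + 41 / 10 * om) ∧
    (1 + ε / 4) * ((k : ℝ) / Real.exp 1) *
      ((1 / 2 - (305 / 100 * LL k M / k + 41 / 10 * om)) *
        (1 - (1 / 2 - (305 / 100 * LL k M / k + 41 / 10 * om)))) ^ (-((k : ℝ) - 1) / 4) ≤
      (1 + ε / 2) * Real.exp (10 * Real.log M ^ 2 / k + 800 * k * om ^ 2) *
        ((k / Real.exp 1) * (2 : ℝ) ^ (((k : ℝ) - 1) / 2)) := by
  have hlim : Tendsto (fun k : ℕ => Real.exp (8400 * Real.log k ^ 2 / k)) atTop (nhds (Real.exp 0)) := by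
    refine (Real.continuous_exp.tendsto _).comp ?_
    have h1 : Tendsto (fun x : ℝ => Real.log x ^ 2 / x) atTop (nhds 0) := by
      have h := Real.isLittleO_pow_log_id_atTop (n := 2)
      exact h.tendsto_div_nhds_zero
    have h2 : Tendsto (fun x : ℝ => 8400 * (Real.log x ^ 2 / x)) atTop (nhds (8400 * 0)) := h1.const_mul 8400
    rw [mul_zero] at h2
    have h3 := h2.comp tendsto_natCast_atTop_atTop (α := ℕ)
    refine h3.congr fun k => ?_
    simp only [Function.comp]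
    ring
  have hlt : Real.exp 0 < (1 + ε / 2) / (1 + ε / 4) := by
    rw [Real.exp_zero, lt_div_iff₀ (by positivity)]
    linarith
  filter_upwards [bl_num0, hlim.eventually_le_const hlt, eventually_ge_atTop 1000] with k hk0 hk1 hk2 M om hM hMk ho0 ho1
  have hk : (1000 : ℝ) ≤ k := by exact_mod_cast hk2
  have hkp : (0 : ℝ) < k := by linarith
  obtain ⟨b0, b1⟩ := hk0 M hM hMk
  obtain ⟨x, hx⟩ : ∃ x, x = Real.log M / k := ⟨_, rfl⟩
  obtain ⟨l, hl⟩ : ∃ l, l = Real.log k / k := ⟨_, rfl⟩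
  have hg : 305 / 100 * LL k M / k + 41 / 10 * om = 305 / 100 * x + (1525 / 100 * l + 41 / 10 * om) := by
    rw [hx, hl]
    unfold LL
    ring
  have hLk : 0 ≤ LL k M / k := by positivity
  have hg0 : 0 ≤ 305 / 100 * LL k M / k + 41 / 10 * om := by
    have h1 : 305 / 100 * LL k M / k = 305 / 100 * (LL k M / k) := by ring
    rw [h1]
    positivity
  have hg1 : 305 / 100 * LL k M / k + 41 / 10 * om ≤ 75 / 10000 := by
    have h1 : 305 / 100 * LL k M / k = 305 / 100 * (LL k M / k) := by ring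
    rw [h1]
    linarith
  rw [hg] at hg0 hg1 ⊢
  obtain ⟨g, hgd⟩ : ∃ g, g = 305 / 100 * x + (1525 / 100 * l + 41 / 10 * om) := ⟨_, rfl⟩
  have hgsq : 10003 / 10000 * g ^ 2 ≤ 10 * x ^ 2 + 8400 * l ^ 2 + 800 * om ^ 2 := by
    rw [hgd]
    have e1 : (305 / 100 * x + (1525 / 100 * l + 41 / 10 * om)) ^ 2 ≤
        106 / 100 * (305 / 100 * x) ^ 2 + 18 * (1525 / 100 * l + 41 / 10 * om) ^ 2 := by
      nlinarith [sq_nonneg (6 / 100 * (305 / 100 * x) - (1525 / 100 * l + 41 / 10 * om)),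
        sq_nonneg (1525 / 100 * l + 41 / 10 * om)]
    have e2 : (1525 / 100 * l + 41 / 10 * om) ^ 2 ≤ 2 * (1525 / 100 * l) ^ 2 + 2 * (41 / 10 * om) ^ 2 := by
      nlinarith [sq_nonneg (1525 / 100 * l - 41 / 10 * om)]
    nlinarith [sq_nonneg x, sq_nonneg l, sq_nonneg om]
  rw [← hgd] at hg0 hg1 ⊢
  refine ⟨by linarith, ?_⟩
  have hqq : (1 / 2 - g) * (1 - (1 / 2 - g)) = 1 / 4 * (1 - 4 * g ^ 2) := by ring
  have hg2 : g ^ 2 ≤ (75 / 10000) ^ 2 := by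
    exact pow_le_pow_left₀ hg0 hg1 2
  have hpos : 0 < 1 - 4 * g ^ 2 := by linarith
  rw [hqq]
  have hlog : -Real.log (1 / 4 * (1 - 4 * g ^ 2)) ≤ Real.log 4 + 4 * g ^ 2 / (1 - 4 * g ^ 2) := by
    rw [Real.log_mul (by norm_num) hpos.ne', one_div, Real.log_inv]
    have h6 := Real.one_sub_inv_le_log_of_pos hpos
    have h7 : 1 - (1 - 4 * g ^ 2)⁻¹ = -(4 * g ^ 2 / (1 - 4 * g ^ 2)) := by
      field_simp
      ring
    linarith
  have h8 : (2 : ℝ) ^ (((k : ℝ) - 1) / 2) = Real.exp (Real.log 4 * ((k - 1) / 4)) := by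
    rw [Real.rpow_def_of_pos (by norm_num)]
    congr 1
    have : Real.log 4 = 2 * Real.log 2 := by
      rw [show (4 : ℝ) = 2 ^ 2 by norm_num, Real.log_pow]
      norm_num
    rw [this]
    ring
  have h9 : 4 * g ^ 2 / (1 - 4 * g ^ 2) * ((k - 1) / 4) ≤ (10 * x ^ 2 + 8400 * l ^ 2 + 800 * om ^ 2) * k := by
    have e1 : 4 * g ^ 2 / (1 - 4 * g ^ 2) ≤ 4 * (10003 / 10000 * g ^ 2) := by
      rw [div_le_iff₀ hpos]
      nlinarith [sq_nonneg g]
    have e2 : 4 * g ^ 2 / (1 - 4 * g ^ 2) * (((k : ℝ) - 1) / 4) ≤ 4 * (10003 / 10000 * g ^ 2) * ((k - 1) / 4) :=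
      mul_le_mul_of_nonneg_right e1 (by linarith)
    have e3 : 10003 / 10000 * g ^ 2 * (k - 1) ≤ (10 * x ^ 2 + 8400 * l ^ 2 + 800 * om ^ 2) * (k - 1) :=
      mul_le_mul_of_nonneg_right hgsq (by linarith)
    have e4 : 0 ≤ 10 * x ^ 2 + 8400 * l ^ 2 + 800 * om ^ 2 := by positivity
    linarith
  have h10 : (10 * x ^ 2 + 8400 * l ^ 2 + 800 * om ^ 2) * k =
      8400 * Real.log k ^ 2 / k + (10 * Real.log M ^ 2 / k + 800 * k * om ^ 2) := by
    rw [hx, hl]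
    field_simp
    ring
  have h11 : (1 / 4 * (1 - 4 * g ^ 2)) ^ (-((k : ℝ) - 1) / 4) ≤
      Real.exp (8400 * Real.log k ^ 2 / k) * Real.exp (10 * Real.log M ^ 2 / k + 800 * k * om ^ 2) *
        (2 : ℝ) ^ (((k : ℝ) - 1) / 2) := by
    rw [Real.rpow_def_of_pos (by positivity), h8, ← Real.exp_add, ← Real.exp_add]
    refine Real.exp_le_exp.2 ?_
    have h12 := mul_le_mul_of_nonneg_right hlog (show (0 : ℝ) ≤ (k - 1) / 4 by linarith)
    rw [← h10]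
    linarith
  have h13 : (1 + ε / 4) * Real.exp (8400 * Real.log k ^ 2 / k) ≤ 1 + ε / 2 := by
    rw [le_div_iff₀ (by positivity)] at hk1
    linarith
  calc (1 + ε / 4) * ((k : ℝ) / Real.exp 1) * (1 / 4 * (1 - 4 * g ^ 2)) ^ (-((k : ℝ) - 1) / 4)
      ≤ (1 + ε / 4) * ((k : ℝ) / Real.exp 1) * (Real.exp (8400 * Real.log k ^ 2 / k) *
        Real.exp (10 * Real.log M ^ 2 / k + 800 * k * om ^ 2) * (2 : ℝ) ^ (((k : ℝ) - 1) / 2)) :=
        mul_le_mul_of_nonneg_left h11 (by positivity)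
    _ = ((1 + ε / 4) * Real.exp (8400 * Real.log k ^ 2 / k)) *
        (Real.exp (10 * Real.log M ^ 2 / k + 800 * k * om ^ 2) * (((k : ℝ) / Real.exp 1) *
          (2 : ℝ) ^ (((k : ℝ) - 1) / 2))) := by ring
    _ ≤ (1 + ε / 2) * (Real.exp (10 * Real.log M ^ 2 / k + 800 * k * om ^ 2) * (((k : ℝ) / Real.exp 1) *
          (2 : ℝ) ^ (((k : ℝ) - 1) / 2))) := mul_le_mul_of_nonneg_right h13 (by positivity)
    _ = _ := by ring

theorem bl_num4 {ε : ℝ} (hε : 0 < ε) : ∀ᶠ k : ℕ in atTop, ∀ N X : ℝ, 0 ≤ X →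
    (1 + ε) * X ≤ N → (1 + ε / 2) * X ≤ N - N / (k : ℝ) ^ 2 := by
  have hlim : Tendsto (fun k : ℕ => 1 / (k : ℝ) ^ 2) atTop (nhds 0) := by
    have h1 : Tendsto (fun k : ℕ => (1 / (k : ℝ)) ^ 2) atTop (nhds (0 ^ 2)) :=
      tendsto_one_div_atTop_nhds_zero_nat.pow 2
    rw [zero_pow two_ne_zero] at h1
    refine h1.congr fun k => ?_
    rw [div_pow, one_pow]
  have hε2 : 0 < ε / 2 / (1 + ε) := by positivity
  filter_upwards [hlim.eventually_le_const hε2] with k hk N X hX hN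
  have hN0 : 0 ≤ N := le_trans (by positivity) hN
  have h1 : N / (k : ℝ) ^ 2 = N * (1 / (k : ℝ) ^ 2) := by ring
  have h2 : N * (1 / (k : ℝ) ^ 2) ≤ N * (ε / 2 / (1 + ε)) := mul_le_mul_of_nonneg_left hk hN0
  have h3 : N - N * (ε / 2 / (1 + ε)) = N * ((1 + ε / 2) / (1 + ε)) := by
    field_simp
    ring
  have h4 : (1 + ε) * X * ((1 + ε / 2) / (1 + ε)) ≤ N * ((1 + ε / 2) / (1 + ε)) :=
    mul_le_mul_of_nonneg_right hN (by positivity)
  have h5 : (1 + ε) * X * ((1 + ε / 2) / (1 + ε)) = (1 + ε / 2) * X := by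
    field_simp
  rw [h1]
  linarith

end Pool.Agent.BLK
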