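import Pool.Agent.BLK.Defs

/-!
# BLK/SM: the second moment bound for one colour (module BLK-SM)

One colour version of the weighted second moment inequality.
-/

namespace Pool.Agent.BLK

open Finset MeasureTheory ProbabilityTheory Pool.Agent.Helper37.NoisyR

theorem bl_sm {N k : ℕ} {Ω : Type} [MeasurableSpace Ω] {μ : Measure Ω} [IsProbabilityMeasure μ]
    {G : Ω → SimpleGraph (Fin N)} (h : IsInd μ G) (b : Bool)
    (w : Finset (Fin N) → ℝ) (hw : ∀ S, 0 ≤ w S) (hw1 : ∑ S, w S = 1)
    (hwk : ∀ S, w S ≠ 0 → S.card = k)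
    (hpos : ∀ S, w S ≠ 0 → ∀ i ∈ S, ∀ j ∈ S, i ≠ j → 0 < pp μ G b i j)
    (s : ℕ → ℝ) (hs0 : ∀ l, 0 ≤ s l)
    (hspread : ∀ L : Finset (Fin N), ∑ T ∈ univ.filter (fun T => L ⊆ T), w T ≤ s L.card)
    (F : ℕ → ℝ) (hF0 : ∀ l, 0 ≤ F l)
    (hF : ∀ S, w S ≠ 0 → ∀ L ⊆ S, 2 ≤ L.card →
      ∏ e ∈ DS L, (pp μ G b e.1.1 e.1.2)⁻¹ ≤ F L.card) :
    1 - ∑ l ∈ range (k + 1), (if 2 ≤ l then (k.choose l : ℝ) * (s l * F l) else 0) ≤
      μ.real {ω | ∃ s : Finset (Fin N), (G ω).IsNClique k s ∨ (G ω)ᶜ.IsNClique k s} := by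
  classical
  set H : Set Ω := {ω | ∃ s : Finset (Fin N), (G ω).IsNClique k s ∨ (G ω)ᶜ.IsNClique k s} with hH
  have hpr : ∀ e : Ed N, pr μ (EE G) b e = pp μ G b e.1.1 e.1.2 := by
    intro e
    unfold pr pp ev EE
    cases b
    · simp only [Bool.false_eq_true, if_false]
      exact probReal_compl_eq_one_sub (h.meas _ _)
    · simp
  set I : Type := {S : Finset (Fin N) // w S ≠ 0} with hI
  have hsumI : ∀ g : Finset (Fin N) → ℝ, ∑ S : I, w S.1 * g S.1 = ∑ S, w S * g S := by
    intro g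
    rw [← sum_filter_add_sum_filter_not univ (fun S => w S ≠ 0) (fun S => w S * g S)]
    have h1 : ∑ S ∈ univ.filter (fun S => ¬ (w S ≠ 0)), w S * g S = 0 := by
      refine sum_eq_zero fun S hS => ?_
      rw [mem_filter, not_not] at hS
      rw [hS.2, zero_mul]
    rw [h1, add_zero]
    exact (sum_subtype (univ.filter fun S => w S ≠ 0) (fun S => by simp)
      (fun S => w S * g S)).symm
  have hw1I : ∑ S : I, w S.1 = 1 := by
    have := hsumI (fun _ => 1)
    simp only [mul_one] at this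
    rw [this, hw1]
  have hposI : ∀ S : I, ∀ e ∈ DS S.1, 0 < pr μ (EE G) b e := by
    intro S e he
    rw [hpr]
    rw [nr_mem_DS] at he
    exact hpos S.1 S.2 _ he.1 _ he.2 e.2.ne
  have hZ : ∀ ω ∈ Hᶜ, ∀ S : I, w S.1 ≠ 0 → ∃ e ∈ DS S.1, ω ∉ ev (EE G) b e := by
    intro ω hω S _
    by_contra hcon
    push Not at hcon
    refine hω ⟨S.1, ?_⟩
    have hc := hwk S.1 S.2
    cases hb : b
    · refine Or.inr ⟨?_, hc⟩
      intro i hi j hj hij
      rw [SimpleGraph.compl_adj]
      refine ⟨hij, fun hadj => ?_⟩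
      rcases lt_or_gt_of_ne hij with h' | h'
      · have := hcon ⟨(i, j), h'⟩ (nr_mem_DS.2 ⟨hi, hj⟩)
        rw [hb] at this
        exact this hadj
      · have := hcon ⟨(j, i), h'⟩ (nr_mem_DS.2 ⟨hj, hi⟩)
        rw [hb] at this
        exact this hadj.symm
    · refine Or.inl ⟨?_, hc⟩
      intro i hi j hj hij
      rcases lt_or_gt_of_ne hij with h' | h'
      · have := hcon ⟨(i, j), h'⟩ (nr_mem_DS.2 ⟨hi, hj⟩)
        rw [hb] at this
        exact this
      · have := hcon ⟨(j, i), h'⟩ (nr_mem_DS.2 ⟨hj, hi⟩)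
        rw [hb] at this
        exact SimpleGraph.Adj.symm this
  have hwsm := nr_wsm (E := EE G) (fun e => h.meas _ _) h.indep (fun S : I => DS S.1)
    (fun _ => b) (fun S => w S.1) (fun S => hw S.1) hw1I hposI Hᶜ hZ
  have hnn : (0 : ℝ) ≤ ∑ l ∈ range (k + 1), if 2 ≤ l then (k.choose l : ℝ) *
      (s l * F l) else 0 := by
    refine sum_nonneg fun l _ => ?_
    split_ifs
    · have := hF0 l
      have := hs0 l
      positivity
    · exact le_rfl
  have key : ∀ S : I, ∑ T : I, w T.1 * bd μ (EE G) (fun S : I => DS S.1) (fun _ => b) S T ≤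
      ∑ l ∈ range (k + 1), if 2 ≤ l then (k.choose l : ℝ) * (s l * F l) else 0 := by
    intro S
    have h1 : ∀ T : I, w T.1 * bd μ (EE G) (fun S : I => DS S.1) (fun _ => b) S T ≤
        w T.1 * ∑ L ∈ S.1.powerset, if L ⊆ T.1 then
          (if 2 ≤ L.card then F L.card else 0) else 0 := by
      intro T
      refine mul_le_mul_of_nonneg_left ?_ (hw T.1)
      have hnn : ∀ L ∈ S.1.powerset, (0 : ℝ) ≤ if L ⊆ T.1 then
          (if 2 ≤ L.card then F L.card else 0) else 0 := by
        intro L _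
        split_ifs
        · exact hF0 _
        · exact le_rfl
        · exact le_rfl
      unfold bd
      split_ifs with h
      · refine le_trans ?_ (single_le_sum hnn (mem_powerset.2 inter_subset_left :
          S.1 ∩ T.1 ∈ _))
        have h3 := h.2
        simp only [nr_DS_inter] at h3 ⊢
        have h2 := nr_DS_card2 h3
        rw [if_pos inter_subset_right, if_pos h2]
        refine le_trans (le_of_eq ?_) (hF S.1 S.2 _ inter_subset_left h2)
        exact prod_congr rfl fun e _ => by rw [hpr]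
      · exact sum_nonneg hnn
    refine (sum_le_sum fun T _ => h1 T).trans ?_
    rw [hsumI (fun T => ∑ L ∈ S.1.powerset, if L ⊆ T then
          (if 2 ≤ L.card then F L.card else 0) else 0)]
    simp_rw [mul_sum]
    rw [sum_comm]
    have h2 : ∀ L ∈ S.1.powerset, ∑ T, w T * (if L ⊆ T then
          (if 2 ≤ L.card then F L.card else 0) else 0) ≤
          (fun l : ℕ => if 2 ≤ l then s l * F l else 0) L.card := by
      intro L _
      have h3 : ∑ T, w T * (if L ⊆ T then
          (if 2 ≤ L.card then F L.card else 0) else 0) =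
          (∑ T ∈ univ.filter (fun T => L ⊆ T), w T) * (if 2 ≤ L.card then F L.card else 0) := by
        rw [sum_mul, sum_filter]
        refine sum_congr rfl fun T _ => ?_
        split_ifs <;> simp
      rw [h3]
      simp only
      split_ifs with h
      · exact mul_le_mul_of_nonneg_right (hspread L) (hF0 _)
      · simp
    refine (sum_le_sum h2).trans ?_
    rw [sum_powerset_apply_card (fun l : ℕ => if 2 ≤ l then s l * F l else 0), hwk S.1 S.2]
    refine sum_le_sum fun l _ => ?_
    rw [nsmul_eq_mul]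
    split_ifs
    · exact le_rfl
    · simp
  have hfin : μ.real Hᶜ ≤ ∑ l ∈ range (k + 1), if 2 ≤ l then (k.choose l : ℝ) *
      (s l * F l) else 0 := by
    refine hwsm.trans ?_
    refine (sum_le_sum fun S _ => mul_le_mul_of_nonneg_left (key S) (hw S.1)).trans ?_
    rw [← sum_mul, hw1I, one_mul]
  have h1 : (1 : ℝ) ≤ μ.real H + μ.real Hᶜ := by
    have h2 := measureReal_union_le (μ := μ) H Hᶜ
    rw [Set.union_compl_self, probReal_univ] at h2
    exact h2
  linarith

end Pool.Agent.BLK
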