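import Pool.Agent.BLK.Wt
import Pool.Agent.BLK.SM

/-!
# BLK/Pair: homogeneous sets inside one or two classes (module BLK-Pair)

Second moment inside one or two classes.
-/

namespace Pool.Agent.BLK

open Finset MeasureTheory ProbabilityTheory Pool.Agent.Helper37.NoisyR

private theorem bp_geom {k : ℕ} (hk : 2 ≤ k) :
    ∑ l ∈ range (k + 1), (if 2 ≤ l then (1 / (k : ℝ)) ^ l else 0) ≤ 2 / (k : ℝ) ^ 2 := by
  have hk0 : (2 : ℝ) ≤ k := by exact_mod_cast hk
  have h1 : ∀ n : ℕ, ∑ l ∈ range (n + 2), (if 2 ≤ l then (1 / (k : ℝ)) ^ l else 0) ≤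
      2 / (k : ℝ) ^ 2 - 2 / (k : ℝ) ^ 2 * (1 / (k : ℝ)) ^ n := by
    intro n
    induction n with
    | zero =>
      simp [sum_range_succ]
    | succ n ih =>
      rw [sum_range_succ, if_pos (by omega)]
      refine (add_le_add_left ih _).trans ?_
      have h2 : 0 ≤ (1 / (k : ℝ)) ^ n := by positivity
      have h3 : (1 / (k : ℝ)) ^ (n + 2) = (1 / (k : ℝ) ^ 2) * (1 / (k : ℝ)) ^ n := by
        rw [pow_add, mul_comm]
        congr 1
        rw [div_pow, one_pow]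
      have h4 : (1 / (k : ℝ)) ^ (n + 1) = (1 / (k : ℝ)) * (1 / (k : ℝ)) ^ n := by
        rw [pow_succ, mul_comm]
      rw [h3, h4]
      have h5 : (1 / (k : ℝ)) ≤ 1 / 2 := one_div_le_one_div_of_le (by norm_num) hk0
      have h6 : 0 ≤ (1 / (k : ℝ) ^ 2) * (1 / (k : ℝ)) ^ n := by positivity
      have h7 : (1 / (k : ℝ)) * ((1 / (k : ℝ) ^ 2) * (1 / (k : ℝ)) ^ n) ≤
          1 / 2 * ((1 / (k : ℝ) ^ 2) * (1 / (k : ℝ)) ^ n) := mul_le_mul_of_nonneg_right h5 h6
      have h8 : 2 / (k : ℝ) ^ 2 * (1 / (k : ℝ) * (1 / (k : ℝ)) ^ n) =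
          2 * ((1 / (k : ℝ)) * ((1 / (k : ℝ) ^ 2) * (1 / (k : ℝ)) ^ n)) := by ring
      have h9 : 2 / (k : ℝ) ^ 2 * (1 / (k : ℝ)) ^ n =
          2 * ((1 / (k : ℝ) ^ 2) * (1 / (k : ℝ)) ^ n) := by ring
      rw [h8, h9]
      linarith
  obtain ⟨m, rfl⟩ : ∃ m, k = m + 1 := ⟨k - 1, by omega⟩
  have h2 := h1 m
  refine h2.trans ?_
  have : 0 ≤ 2 / ((m + 1 : ℕ) : ℝ) ^ 2 * (1 / ((m + 1 : ℕ) : ℝ)) ^ m := by positivity
  linarith

theorem bl_pair {N k k1 k2 : ℕ} (hk : k1 + k2 = k) (hk2 : 2 ≤ k) (hk1 : 1 ≤ k1)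
    {Ω : Type} [MeasurableSpace Ω] {μ : Measure Ω} [IsProbabilityMeasure μ]
    {G : Ω → SimpleGraph (Fin N)} (h : IsInd μ G) (b : Bool) {A B : Finset (Fin N)}
    (hAB : Disjoint A B) {ca cb cx Lam : ℝ} (hca : 0 ≤ ca) (hcb : 0 ≤ cb) (hcx : 0 ≤ cx)
    (ha : ∀ i ∈ A, ∀ j ∈ A, i ≠ j → Real.exp (-ca) ≤ pp μ G b i j)
    (hb : ∀ i ∈ B, ∀ j ∈ B, i ≠ j → Real.exp (-cb) ≤ pp μ G b i j)
    (hx : ∀ i ∈ A, ∀ j ∈ B, Real.exp (-cx) ≤ pp μ G b i j)
    (h1 : ca * (k1 - 1) + cx * k2 ≤ 2 * Lam) (h2 : k2 = 0 ∨ cb * (k2 - 1) + cx * k1 ≤ 2 * Lam)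
    (hA : (k : ℝ) ^ 3 * Real.exp Lam ≤ A.card) (hB : k2 = 0 ∨ (k : ℝ) ^ 3 * Real.exp Lam ≤ B.card) :
    1 - 2 / (k : ℝ) ^ 2 ≤
      μ.real {ω | ∃ s : Finset (Fin N), (G ω).IsNClique k s ∨ (G ω)ᶜ.IsNClique k s} := by
  classical
  have hk0 : (2 : ℝ) ≤ k := by exact_mod_cast hk2
  have hk10 : (1 : ℝ) ≤ k1 := by exact_mod_cast hk1
  have hLam : 0 ≤ Lam := by
    have h3 : 0 ≤ ca * ((k1 : ℝ) - 1) := mul_nonneg hca (by linarith)
    have h4 : 0 ≤ cx * (k2 : ℝ) := mul_nonneg hcx (Nat.cast_nonneg _)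
    linarith
  set n : ℝ := (k : ℝ) ^ 3 * Real.exp Lam with hn
  have hn0 : 0 < n := by positivity
  have hkn : (k : ℝ) ≤ n := by
    have h3 : (1 : ℝ) ≤ Real.exp Lam := Real.one_le_exp hLam
    have h4 : (1 : ℝ) ≤ (k : ℝ) ^ 2 := one_le_pow₀ (by linarith)
    calc (k : ℝ) = k * 1 * 1 := by ring
      _ ≤ k * (k : ℝ) ^ 2 * Real.exp Lam :=
          mul_le_mul (mul_le_mul_of_nonneg_left h4 (by linarith)) h3 zero_le_one (by positivity)
      _ = n := by rw [hn]; ring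
  obtain ⟨w, hw, hw1, hwS, hspread⟩ := bl_weight hAB k1 k2 hn0
    (by rw [hk]; exact hkn) hA hB
  have hwk : ∀ S, w S ≠ 0 → S.card = k := by
    intro S hS
    obtain ⟨h3, h4, h5⟩ := hwS S hS
    have h6 : S = (S ∩ A) ∪ (S ∩ B) := by
      rw [← inter_union_distrib_left, inter_eq_left.2 h3]
    rw [h6, card_union_of_disjoint (Disjoint.mono inter_subset_right inter_subset_right hAB),
      h4, h5, hk]
  have hx' : ∀ i ∈ B, ∀ j ∈ A, Real.exp (-cx) ≤ pp μ G b i j := by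
    intro i hi j hj
    rw [nr_pp_comm]
    exact hx j hj i hi
  have hposS : ∀ S, w S ≠ 0 → ∀ i ∈ S, ∀ j ∈ S, i ≠ j → 0 < pp μ G b i j := by
    intro S hS i hi j hj hij
    obtain ⟨h3, -, -⟩ := hwS S hS
    rcases mem_union.1 (h3 hi) with hi' | hi' <;> rcases mem_union.1 (h3 hj) with hj' | hj'
    · exact (Real.exp_pos _).trans_le (ha i hi' j hj' hij)
    · exact (Real.exp_pos _).trans_le (hx i hi' j hj')
    · exact (Real.exp_pos _).trans_le (hx' i hi' j hj')
    · exact (Real.exp_pos _).trans_le (hb i hi' j hj' hij)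
  have hlog : ∀ {c : ℝ} {i j : Fin N}, Real.exp (-c) ≤ pp μ G b i j →
      -Real.log (pp μ G b i j) ≤ c := by
    intro c i j h3
    have := Real.log_le_log (Real.exp_pos _) h3
    rw [Real.log_exp] at this
    linarith
  have hF : ∀ S, w S ≠ 0 → ∀ L ⊆ S, 2 ≤ L.card →
      ∏ e ∈ DS L, (pp μ G b e.1.1 e.1.2)⁻¹ ≤ Real.exp (L.card * Lam) := by
    intro S hS L hL _
    obtain ⟨h3, h4, h5⟩ := hwS S hS
    have hpos := hposS S hS
    have h6 : ∏ e ∈ DS L, (pp μ G b e.1.1 e.1.2)⁻¹ =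
        Real.exp (∑ e ∈ DS L, -Real.log (pp μ G b e.1.1 e.1.2)) := by
      rw [Real.exp_sum]
      refine prod_congr rfl fun e he => ?_
      rw [nr_mem_DS] at he
      rw [Real.exp_neg, Real.exp_log (hpos _ (hL he.1) _ (hL he.2) e.2.ne)]
    rw [h6]
    refine Real.exp_le_exp.2 ?_
    have h7 := nr_half (fun i j => -Real.log (pp μ G b i j))
      (fun i j => by rw [nr_pp_comm]) L
    have hLAB : L = (L ∩ A) ∪ (L ∩ B) := by
      rw [← inter_union_distrib_left, inter_eq_left.2 (hL.trans h3)]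
    have hdis : Disjoint (L ∩ A) (L ∩ B) :=
      Disjoint.mono inter_subset_right inter_subset_right hAB
    have hcA : ((L ∩ A).card : ℝ) ≤ k1 := by
      have := card_le_card (inter_subset_inter_right (u := A) hL)
      rw [h4] at this
      exact_mod_cast this
    have hcB : ((L ∩ B).card : ℝ) ≤ k2 := by
      have := card_le_card (inter_subset_inter_right (u := B) hL)
      rw [h5] at this
      exact_mod_cast this
    have h8 : ∀ i ∈ L, ∑ j ∈ L.erase i, -Real.log (pp μ G b i j) ≤ 2 * Lam := by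
      intro i hi
      rcases mem_union.1 (h3 (hL hi)) with hiA | hiB
      · have hiL : i ∈ L ∩ A := mem_inter.2 ⟨hi, hiA⟩
        have hiB : i ∉ L ∩ B := disjoint_left.1 hdis hiL
        have h9 : L.erase i = ((L ∩ A).erase i) ∪ (L ∩ B) := by
          conv_lhs => rw [hLAB, erase_union_distrib, erase_eq_of_notMem hiB]
        have h10 : Disjoint ((L ∩ A).erase i) (L ∩ B) :=
          Disjoint.mono_left (erase_subset _ _) hdis
        rw [h9, sum_union h10]
        have h11 : ∑ j ∈ (L ∩ A).erase i, -Real.log (pp μ G b i j) ≤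
            ∑ j ∈ (L ∩ A).erase i, ca := by
          refine sum_le_sum fun j hj => hlog (ha i hiA j (mem_inter.1 (mem_of_mem_erase hj)).2 ?_)
          exact (ne_of_mem_erase hj).symm
        have h12 : ∑ j ∈ L ∩ B, -Real.log (pp μ G b i j) ≤ ∑ j ∈ L ∩ B, cx :=
          sum_le_sum fun j hj => hlog (hx i hiA j (mem_inter.1 hj).2)
        rw [sum_const, nsmul_eq_mul, card_erase_of_mem hiL,
          Nat.cast_sub (card_pos.2 ⟨i, hiL⟩), Nat.cast_one] at h11
        rw [sum_const, nsmul_eq_mul] at h12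
        have h13 := mul_le_mul_of_nonneg_right (show ((L ∩ A).card : ℝ) - 1 ≤ k1 - 1 by linarith) hca
        have h14 := mul_le_mul_of_nonneg_right hcB hcx
        linarith
      · have hiL : i ∈ L ∩ B := mem_inter.2 ⟨hi, hiB⟩
        have hiA : i ∉ L ∩ A := disjoint_right.1 hdis hiL
        have h9 : L.erase i = (L ∩ A) ∪ ((L ∩ B).erase i) := by
          conv_lhs => rw [hLAB, erase_union_distrib, erase_eq_of_notMem hiA]
        have h10 : Disjoint (L ∩ A) ((L ∩ B).erase i) :=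
          Disjoint.mono_right (erase_subset _ _) hdis
        rw [h9, sum_union h10]
        have h11 : ∑ j ∈ (L ∩ B).erase i, -Real.log (pp μ G b i j) ≤
            ∑ j ∈ (L ∩ B).erase i, cb := by
          refine sum_le_sum fun j hj => hlog (hb i hiB j (mem_inter.1 (mem_of_mem_erase hj)).2 ?_)
          exact (ne_of_mem_erase hj).symm
        have h12 : ∑ j ∈ L ∩ A, -Real.log (pp μ G b i j) ≤ ∑ j ∈ L ∩ A, cx :=
          sum_le_sum fun j hj => hlog (hx' i hiB j (mem_inter.1 hj).2)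
        rw [sum_const, nsmul_eq_mul, card_erase_of_mem hiL,
          Nat.cast_sub (card_pos.2 ⟨i, hiL⟩), Nat.cast_one] at h11
        rw [sum_const, nsmul_eq_mul] at h12
        have h13 := mul_le_mul_of_nonneg_right (show ((L ∩ B).card : ℝ) - 1 ≤ k2 - 1 by linarith) hcb
        have h14 := mul_le_mul_of_nonneg_right hcA hcx
        have h15 : cb * ((k2 : ℝ) - 1) + cx * k1 ≤ 2 * Lam := by
          rcases h2 with h2 | h2
          · exfalso
            rw [h2] at h5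
            have h16 : i ∈ S ∩ B := mem_inter.2 ⟨hL hi, hiB⟩
            rw [card_eq_zero.1 h5] at h16
            simp at h16
          · exact h2
        linarith
    have h9 : ∑ i ∈ L, ∑ j ∈ L.erase i, -Real.log (pp μ G b i j) ≤ ∑ i ∈ L, 2 * Lam :=
      sum_le_sum h8
    rw [sum_const, nsmul_eq_mul] at h9
    linarith
  have key := bl_sm h b w hw hw1 hwk hposS (fun l => ((k : ℝ) / n) ^ l)
    (fun l => by positivity) (by
      intro L
      have := hspread L
      rwa [hk] at this) (fun l => Real.exp (l * Lam)) (fun l => (Real.exp_pos _).le) hF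
  refine le_trans ?_ key
  have hsum : ∑ l ∈ range (k + 1), (if 2 ≤ l then (k.choose l : ℝ) *
      (((k : ℝ) / n) ^ l * Real.exp (l * Lam)) else 0) ≤
      ∑ l ∈ range (k + 1), (if 2 ≤ l then (1 / (k : ℝ)) ^ l else 0) := by
    refine sum_le_sum fun l _ => ?_
    split_ifs with hl
    · have h3 : (k.choose l : ℝ) ≤ (k : ℝ) ^ l := by
        exact_mod_cast Nat.choose_le_pow k l
      have h4 : (k : ℝ) ^ l * (((k : ℝ) / n) ^ l * Real.exp (l * Lam)) = (1 / (k : ℝ)) ^ l := by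
        rw [Real.exp_nat_mul, ← mul_pow, ← mul_pow]
        congr 1
        rw [hn]
        have : Real.exp Lam ≠ 0 := (Real.exp_pos _).ne'
        have : (k : ℝ) ≠ 0 := by linarith
        field_simp
      rw [← h4]
      exact mul_le_mul_of_nonneg_right h3 (by positivity)
    · exact le_rfl
  have := bp_geom hk2
  linarith

end Pool.Agent.BLK
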