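import Pool.Agent.BLK.Sub
import Pool.Agent.BLK.Pair
import Pool.Agent.BLK.NumB

/-!
# BLK/Core: the general upper bound (module BLK-Core)

The general upper bound: three cases.
-/

namespace Pool.Agent.BLK

open Finset MeasureTheory ProbabilityTheory Filter Pool.Agent.Helper37.NoisyR

private theorem co_col {x g om : ℝ} (h : g + om ≤ |x - 1 / 2|) :
    ∃ b : Bool, ∀ y : ℝ, |y - x| ≤ om → 1 / 2 + g ≤ (if b then y else 1 - y) := by
  rcases le_total 0 (x - 1 / 2) with h0 | h0
  · refine ⟨true, fun y hy => ?_⟩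
    rw [abs_of_nonneg h0] at h
    have := (abs_le.1 hy).1
    rw [if_pos rfl]
    linarith
  · refine ⟨false, fun y hy => ?_⟩
    rw [abs_of_nonpos h0] at h
    have := (abs_le.1 hy).2
    rw [if_neg (by decide)]
    linarith

private theorem co_in {x g om y : ℝ} (h : |x - 1 / 2| < g + om) (hy : |y - x| ≤ om) (b : Bool) :
    1 / 2 - (g + 2 * om) ≤ (if b then y else 1 - y) := by
  have h1 := abs_lt.1 h
  have h2 := abs_le.1 hy
  cases b
  · rw [if_neg (by decide)]
    linarith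
  · rw [if_pos rfl]
    linarith

private theorem co_pp {N : ℕ} {Ω : Type} [MeasurableSpace Ω] (μ : Measure Ω)
    (G : Ω → SimpleGraph (Fin N)) (b : Bool) (i j : Fin N) :
    pp μ G b i j = if b then μ.real {ω | (G ω).Adj i j} else 1 - μ.real {ω | (G ω).Adj i j} := rfl

private theorem co_log {x : ℝ} (h0 : 0 < x) (h1 : x ≤ 1) : 0 ≤ -Real.log x ∧ Real.exp (-(-Real.log x)) = x := by
  refine ⟨?_, ?_⟩
  · have := Real.log_nonpos h0.le h1
    linarith
  · rw [neg_neg, Real.exp_log h0]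

open Classical in
private theorem co_large {N M : ℕ} (hM : 1 ≤ M) {k : ℕ} (hk : 1 ≤ k) (t : Fin N → Fin M) :
    (N : ℝ) - N / (k : ℝ) ^ 2 ≤
      ((univ.filter fun i : Fin N => (N : ℝ) / ((k : ℝ) ^ 2 * M) ≤
        ((univ.filter fun j => t j = t i).card : ℝ)).card : ℝ) := by
  have hk0 : (0 : ℝ) < k := by exact_mod_cast hk
  have hM0 : (0 : ℝ) < M := by exact_mod_cast hM
  set U := univ.filter fun i : Fin N => (N : ℝ) / ((k : ℝ) ^ 2 * M) ≤
        ((univ.filter fun j => t j = t i).card : ℝ) with hU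
  have h1 : ((univ.filter fun i : Fin N => ¬ ((N : ℝ) / ((k : ℝ) ^ 2 * M) ≤
        ((univ.filter fun j => t j = t i).card : ℝ))).card : ℝ) ≤ N / (k : ℝ) ^ 2 := by
    set S := univ.filter fun a : Fin M => ¬ ((N : ℝ) / ((k : ℝ) ^ 2 * M) ≤
        ((univ.filter fun j => t j = a).card : ℝ)) with hS
    have h2 : (univ.filter fun i : Fin N => ¬ ((N : ℝ) / ((k : ℝ) ^ 2 * M) ≤
        ((univ.filter fun j => t j = t i).card : ℝ))) ⊆
        S.biUnion fun a => univ.filter fun j => t j = a := by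
      intro i hi
      rw [mem_filter] at hi
      rw [mem_biUnion]
      refine ⟨t i, ?_, ?_⟩
      · rw [hS, mem_filter]
        exact ⟨mem_univ _, hi.2⟩
      · rw [mem_filter]
        exact ⟨mem_univ _, rfl⟩
    have h3 : ((univ.filter fun i : Fin N => ¬ ((N : ℝ) / ((k : ℝ) ^ 2 * M) ≤
        ((univ.filter fun j => t j = t i).card : ℝ))).card : ℝ) ≤
        ∑ a ∈ S, ((univ.filter fun j => t j = a).card : ℝ) := by
      have := (card_le_card h2).trans card_biUnion_le
      exact_mod_cast this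
    refine h3.trans ?_
    calc ∑ a ∈ S, ((univ.filter fun j => t j = a).card : ℝ)
        ≤ ∑ a ∈ S, (N : ℝ) / ((k : ℝ) ^ 2 * M) := by
          refine sum_le_sum fun a ha => ?_
          rw [hS, mem_filter] at ha
          exact (not_le.1 ha.2).le
      _ ≤ ∑ a : Fin M, (N : ℝ) / ((k : ℝ) ^ 2 * M) := by
          refine sum_le_sum_of_subset_of_nonneg (subset_univ _) fun _ _ _ => by positivity
      _ = N / (k : ℝ) ^ 2 := by
          rw [sum_const, card_univ, Fintype.card_fin, nsmul_eq_mul]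
          field_simp
  have h4 : ((univ.filter fun i : Fin N => (N : ℝ) / ((k : ℝ) ^ 2 * M) ≤
        ((univ.filter fun j => t j = t i).card : ℝ)).card : ℝ) +
      ((univ.filter fun i : Fin N => ¬ ((N : ℝ) / ((k : ℝ) ^ 2 * M) ≤
        ((univ.filter fun j => t j = t i).card : ℝ))).card : ℝ) = N := by
    have := card_filter_add_card_filter_not (s := (univ : Finset (Fin N)))
      (fun i : Fin N => (N : ℝ) / ((k : ℝ) ^ 2 * M) ≤
        ((univ.filter fun j => t j = t i).card : ℝ))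
    rw [card_univ, Fintype.card_fin] at this
    exact_mod_cast this
  linarith

theorem bl_core {ε : ℝ} (hε : 0 < ε) : ∀ᶠ k : ℕ in atTop, ∀ (M : ℕ) (om : ℝ), 1 ≤ M →
    Real.log M ≤ k / 1000 → 0 ≤ om → om ≤ 1 / 1000 → ∀ N : ℕ,
    (1 + ε) * Real.exp (10 * Real.log M ^ 2 / k + 800 * k * om ^ 2) *
      ((k / Real.exp 1) * (2 : ℝ) ^ (((k : ℝ) - 1) / 2)) ≤ N →
    ∀ (Ω : Type) [MeasurableSpace Ω] (μ : Measure Ω) [IsProbabilityMeasure μ]
      (G : Ω → SimpleGraph (Fin N)), IsInd μ G →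
    ∀ (t : Fin N → Fin M) (r : Fin M → Fin M → ℝ),
      (∀ i j, i ≠ j → |μ.real {ω | (G ω).Adj i j} - r (t i) (t j)| ≤ om) →
    1 - ε ≤ μ.real {ω | ∃ s : Finset (Fin N), (G ω).IsNClique k s ∨ (G ω)ᶜ.IsNClique k s} := by
  have he : ∀ᶠ k : ℕ in atTop, 2 / (k : ℝ) ^ 2 ≤ ε := by
    have h1 : Tendsto (fun k : ℕ => 2 / (k : ℝ) ^ 2) atTop (nhds 0) := by
      refine Tendsto.const_div_atTop ?_ 2
      exact (tendsto_pow_atTop (by norm_num)).comp tendsto_natCast_atTop_atTop
    exact h1.eventually_le_const hε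
  filter_upwards [bl_num0, bl_num1, bl_num2, bl_num3 hε, bl_num4 hε,
    nr_partB (ε := ε / 4) (by positivity), he, eventually_ge_atTop 2] with
    k h0 h1 h2 h3 h4 h5 h6 hk2
  intro M om hM hlM hom0 hom1 N hN Ω _ μ _ G hG t r hr
  classical
  obtain ⟨hL0, hL1⟩ := h0 M hM hlM
  have hk0 : (0 : ℝ) < k := by
    have : 0 < k := by omega
    exact_mod_cast this
  have hkk : (2 : ℝ) ≤ k := by exact_mod_cast hk2
  set X : ℝ := (k / Real.exp 1) * (2 : ℝ) ^ (((k : ℝ) - 1) / 2) with hX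
  have hX0 : 0 < X := by positivity
  have hK1 : (1 : ℝ) ≤ Real.exp (10 * Real.log M ^ 2 / k + 800 * k * om ^ 2) :=
    Real.one_le_exp (by positivity)
  have hXN : X ≤ N := by
    refine le_trans ?_ hN
    have h7 : (1 : ℝ) ≤ (1 + ε) * Real.exp (10 * Real.log M ^ 2 / k + 800 * k * om ^ 2) := by
      nlinarith
    nlinarith
  have hgk : 101 / 100 * LL k M / k = 101 / 100 * (LL k M / k) := by ring
  have hgk2 : 305 / 100 * LL k M / k = 305 / 100 * (LL k M / k) := by ring
  have hLk0 : 0 ≤ LL k M / k := by positivity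
  set g1 : ℝ := 101 / 100 * LL k M / k with hg1
  set g2 : ℝ := 305 / 100 * LL k M / k + 21 / 10 * om with hg2
  set g3 : ℝ := 305 / 100 * LL k M / k + 41 / 10 * om with hg3
  have hg10 : 0 ≤ g1 := by rw [hgk]; positivity
  have hg11 : g1 ≤ 2 / 1000 := by rw [hgk]; linarith
  have hg20 : 0 ≤ g2 := by rw [hg2, hgk2]; positivity
  have hg21 : g2 ≤ 1 / 100 := by rw [hg2, hgk2]; linarith
  have hfin : ∀ x : ℝ, 1 - 2 / (k : ℝ) ^ 2 ≤ x → 1 - ε ≤ x := fun x hx => by linarith
  by_cases hc1 : ∃ a : Fin M, (N : ℝ) / ((k : ℝ) ^ 2 * M) ≤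
      ((univ.filter fun j => t j = a).card : ℝ) ∧ g1 + om ≤ |r a a - 1 / 2|
  · obtain ⟨a, ha, hra⟩ := hc1
    obtain ⟨b, hb⟩ := co_col hra
    obtain ⟨hl0, hl1⟩ := co_log (x := 1 / 2 + g1) (by linarith) (by linarith)
    refine hfin _ (bl_pair (k1 := k) (k2 := 0) (Nat.add_zero k) hk2 (by omega) hG b
      (A := univ.filter fun j => t j = a) (B := ∅) (disjoint_empty_right _)
      (ca := -Real.log (1 / 2 + g1)) (cb := 0) (cx := 0)
      (Lam := -Real.log (1 / 2 + g1) * (k - 1) / 2) hl0 le_rfl le_rfl ?_ ?_ ?_ ?_ ?_ ?_ ?_)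
    · intro i hi j hj hij
      rw [mem_filter] at hi hj
      rw [hl1, co_pp]
      refine hb _ ?_
      have := hr i j hij
      rw [hi.2, hj.2] at this
      exact this
    · intro i hi
      simp at hi
    · intro i _ j hj
      simp at hj
    · push_cast
      linarith
    · left
      rfl
    · exact (h1 M hM hlM N hXN).trans ha
    · left
      rfl
  push Not at hc1
  by_cases hc2 : ∃ a b : Fin M, a ≠ b ∧ (N : ℝ) / ((k : ℝ) ^ 2 * M) ≤
      ((univ.filter fun j => t j = a).card : ℝ) ∧ (N : ℝ) / ((k : ℝ) ^ 2 * M) ≤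
      ((univ.filter fun j => t j = b).card : ℝ) ∧ g2 + om ≤ |r a b - 1 / 2|
  · obtain ⟨a, a', hne, ha, ha', hra⟩ := hc2
    obtain ⟨b, hb⟩ := co_col hra
    obtain ⟨hl0, hl1⟩ := co_log (x := 1 / 2 + g2) (by linarith) (by linarith)
    obtain ⟨hm0, hm1⟩ := co_log (x := 1 / 2 - (g1 + 2 * om)) (by linarith) (by linarith)
    have hkd : ((k / 2 : ℕ) : ℝ) ≤ k / 2 := Nat.cast_div_le
    have hkd2 : ((k - k / 2 : ℕ) : ℝ) ≤ (k + 1) / 2 := by
      have h7 : 2 * (k - k / 2) ≤ k + 1 := by omega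
      have h8 : (2 : ℝ) * ((k - k / 2 : ℕ) : ℝ) ≤ k + 1 := by exact_mod_cast h7
      linarith
    have hin : ∀ a0 : Fin M, (N : ℝ) / ((k : ℝ) ^ 2 * M) ≤
        ((univ.filter fun j => t j = a0).card : ℝ) → ∀ i ∈ univ.filter (fun j => t j = a0),
        ∀ j ∈ univ.filter (fun j => t j = a0), i ≠ j →
        Real.exp (-(-Real.log (1 / 2 - (g1 + 2 * om)))) ≤ pp μ G b i j := by
      intro a0 ha0 i hi j hj hij
      rw [mem_filter] at hi hj
      rw [hm1, co_pp]
      have h7 := hr i j hij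
      rw [hi.2, hj.2] at h7
      exact co_in (hc1 a0 ha0) h7 b
    refine hfin _ (bl_pair (k1 := k / 2) (k2 := k - k / 2) (by omega) hk2 (by omega) hG b
      (A := univ.filter fun j => t j = a) (B := univ.filter fun j => t j = a') ?_
      (ca := -Real.log (1 / 2 - (g1 + 2 * om))) (cb := -Real.log (1 / 2 - (g1 + 2 * om)))
      (cx := -Real.log (1 / 2 + g2))
      (Lam := (-Real.log (1 / 2 - (g1 + 2 * om)) * (k / 2) +
        -Real.log (1 / 2 + g2) * ((k + 1) / 2)) / 2) hm0 hm0 hl0 (hin a ha) (hin a' ha')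
      ?_ ?_ ?_ ?_ ?_)
    · rw [disjoint_left]
      intro i hi hi'
      rw [mem_filter] at hi hi'
      exact hne (hi.2.symm.trans hi'.2)
    · intro i hi j hj
      rw [mem_filter] at hi hj
      rw [hl1, co_pp]
      refine hb _ ?_
      have hij : i ≠ j := by
        rintro rfl
        exact hne (hi.2.symm.trans hj.2)
      have := hr i j hij
      rw [hi.2, hj.2] at this
      exact this
    · have h7 := mul_le_mul_of_nonneg_left (show ((k / 2 : ℕ) : ℝ) - 1 ≤ k / 2 by linarith) hm0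
      have h8 := mul_le_mul_of_nonneg_left hkd2 hl0
      linarith
    · right
      have h7 := mul_le_mul_of_nonneg_left
        (show ((k - k / 2 : ℕ) : ℝ) - 1 ≤ k / 2 by linarith) hm0
      have h8 := mul_le_mul_of_nonneg_left
        (show ((k / 2 : ℕ) : ℝ) ≤ (k + 1) / 2 by linarith) hl0
      linarith
    · exact (h2 M om hM hlM hom0 hom1 N hXN).trans ha
    · right
      exact (h2 M om hM hlM hom0 hom1 N hXN).trans ha'
  push Not at hc2
  -- the large classes
  set U := univ.filter fun i : Fin N => (N : ℝ) / ((k : ℝ) ^ 2 * M) ≤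
        ((univ.filter fun j => t j = t i).card : ℝ) with hU
  have hUc : (N : ℝ) - N / (k : ℝ) ^ 2 ≤ (U.card : ℝ) := co_large hM (by omega) t
  obtain ⟨hq, hq2⟩ := h3 M om hM hlM hom0 hom1
  have hN2 : (1 + ε / 4) * ((k : ℝ) / Real.exp 1) *
      ((1 / 2 - g3) * (1 - (1 / 2 - g3))) ^ (-((k : ℝ) - 1) / 4) ≤ (U.card : ℝ) := by
    refine hq2.trans (le_trans ?_ hUc)
    have h7 := h4 N (Real.exp (10 * Real.log M ^ 2 / k + 800 * k * om ^ 2) * X)
      (by positivity) (by linarith)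
    linarith
  have hg30 : 0 ≤ g3 := by rw [hg3, hgk2]; positivity
  set f := U.orderEmbOfFin rfl with hf
  have hfU : ∀ i, f i ∈ U := fun i => U.orderEmbOfFin_mem rfl i
  have hno : IsNoisy (1 / 2 - g3) μ (fun ω => (G ω).comap f) := by
    refine bl_sub_noisy f hG fun i j hij => ?_
    have hne : f i ≠ f j := fun h => hij (f.injective h)
    have h7 := hr (f i) (f j) hne
    have hi := (mem_filter.1 (hfU i)).2
    have hj := (mem_filter.1 (hfU j)).2
    have h8 : |r (t (f i)) (t (f j)) - 1 / 2| < g2 + om := by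
      by_cases h9 : t (f i) = t (f j)
      · have h10 := hc1 (t (f i)) hi
        rw [← h9]
        have h11 : g1 ≤ g2 := by
          rw [hg2, hgk, hgk2]
          nlinarith
        linarith
      · exact hc2 (t (f i)) (t (f j)) h9 hi hj
    have h12 := co_in h8 h7 true
    have h13 := co_in h8 h7 false
    rw [if_pos rfl] at h12
    rw [if_neg (by decide)] at h13
    have h14 : g2 + 2 * om = g3 := by rw [hg2, hg3]; ring
    constructor <;> linarith
  have h15 := h5 (1 / 2 - g3) hq (by linarith) U.card hN2 Ω μ (fun ω => (G ω).comap f) hno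
  have h16 : μ.real {ω | ∃ s : Finset (Fin U.card), ((G ω).comap f).IsNClique k s ∨
      ((G ω).comap f)ᶜ.IsNClique k s} ≤
      μ.real {ω | ∃ s : Finset (Fin N), (G ω).IsNClique k s ∨ (G ω)ᶜ.IsNClique k s} := by
    refine measureReal_mono (fun ω hω => ?_) (measure_ne_top _ _)
    exact bl_sub_hom f (G ω) hω
  linarith

end Pool.Agent.BLK
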