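import Pool.Agent.Helper37.NoisyR.Final

/-!
# BLK: Ramsey numbers of block models and of low dimensional kernels (MP_8d42bc_co)

Random graphs on `Fin N` with independent edges.  `IsBlk M`: the vertices have types in `Fin M` (arbitrary assignment)
and the probability of the edge `ij` depends only on the types of `i` and `j`.  `IsGeo d Lam`: the vertices
have positions in the cube `[0,1]^d` (arbitrary) and the probability of `ij` is a `Lam`-Lipschitz function
of the two positions.  `RB M k`, `RG d Lam k`: the Ramsey numbers of the two models.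
-/

namespace Pool.Agent.BLK

open MeasureTheory ProbabilityTheory

/-- independent edges -/
structure IsInd {N : ℕ} {Ω : Type} [MeasurableSpace Ω] (μ : Measure Ω)
    (G : Ω → SimpleGraph (Fin N)) : Prop where
  meas : ∀ i j, MeasurableSet {ω | (G ω).Adj i j}
  indep : iIndepSet (fun e : {p : Fin N × Fin N // p.1 < p.2} => {ω | (G ω).Adj e.1.1 e.1.2}) μ

/-- block model with `M` blocks (types) -/
structure IsBlk (M : ℕ) {N : ℕ} {Ω : Type} [MeasurableSpace Ω] (μ : Measure Ω)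
    (G : Ω → SimpleGraph (Fin N)) : Prop extends IsInd μ G where
  block : ∃ (t : Fin N → Fin M) (p : Fin M → Fin M → ℝ), ∀ i j, i ≠ j →
    μ.real {ω | (G ω).Adj i j} = p (t i) (t j)

/-- vertices in `[0,1]^d`, edge probabilities a `Lam`-Lipschitz function (sup metric) of the positions -/
structure IsGeo (d : ℕ) (Lam : ℝ) {N : ℕ} {Ω : Type} [MeasurableSpace Ω] (μ : Measure Ω)
    (G : Ω → SimpleGraph (Fin N)) : Prop extends IsInd μ G where
  geo : ∃ (x : Fin N → Fin d → ℝ) (W : (Fin d → ℝ) → (Fin d → ℝ) → ℝ),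
    (∀ i c, 0 ≤ x i c ∧ x i c ≤ 1) ∧
    (∀ u v u' v' : Fin d → ℝ, (∀ c, 0 ≤ u c ∧ u c ≤ 1) → (∀ c, 0 ≤ v c ∧ v c ≤ 1) →
      (∀ c, 0 ≤ u' c ∧ u' c ≤ 1) → (∀ c, 0 ≤ v' c ∧ v' c ≤ 1) →
      |W u v - W u' v'| ≤ Lam * (dist u u' + dist v v')) ∧
    ∀ i j, i ≠ j → μ.real {ω | (G ω).Adj i j} = W (x i) (x j)

/-- every block model with `M` blocks on `N` vertices has a homogeneous `k`-set with probability
at least `1 - η` -/
def HomB (M : ℕ) (η : ℝ) (N k : ℕ) : Prop :=
  ∀ (Ω : Type) [MeasurableSpace Ω] (μ : Measure Ω) [IsProbabilityMeasure μ]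
    (G : Ω → SimpleGraph (Fin N)), IsBlk M μ G →
    1 - η ≤ μ.real {ω | ∃ s : Finset (Fin N), (G ω).IsNClique k s ∨ (G ω)ᶜ.IsNClique k s}

/-- the same for kernels on `[0,1]^d` -/
def HomG (d : ℕ) (Lam η : ℝ) (N k : ℕ) : Prop :=
  ∀ (Ω : Type) [MeasurableSpace Ω] (μ : Measure Ω) [IsProbabilityMeasure μ]
    (G : Ω → SimpleGraph (Fin N)), IsGeo d Lam μ G →
    1 - η ≤ μ.real {ω | ∃ s : Finset (Fin N), (G ω).IsNClique k s ∨ (G ω)ᶜ.IsNClique k s}

/-- Ramsey number of block models with `M` blocks -/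
noncomputable def RB (M k : ℕ) : ℕ := sInf {N : ℕ | HomB M (1 / 2) N k}

/-- Ramsey number of `Lam`-Lipschitz kernels on `[0,1]^d` -/
noncomputable def RG (d : ℕ) (Lam : ℝ) (k : ℕ) : ℕ := sInf {N : ℕ | HomG d Lam (1 / 2) N k}

end Pool.Agent.BLK
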