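import Pool.Agent.BLK.Defs

/-!
# BLK/Geo: kernels on the cube are close to block models (module BLK-Geo)
-/

namespace Pool.Agent.BLK

open MeasureTheory ProbabilityTheory Filter

private theorem cell_num {m : ℕ} (hm : 1 ≤ m) {y : ℝ} (h0 : 0 ≤ y) (h1 : y ≤ 1) :
    ((min ⌊(m : ℝ) * y⌋₊ (m - 1) : ℕ) : ℝ) ≤ m * y ∧
      (m : ℝ) * y ≤ ((min ⌊(m : ℝ) * y⌋₊ (m - 1) : ℕ) : ℝ) + 1 := by
  have hm' : (1 : ℝ) ≤ m := by exact_mod_cast hm
  constructor
  · refine le_trans ?_ (Nat.floor_le (by positivity))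
    exact_mod_cast min_le_left _ _
  · rcases le_total ⌊(m : ℝ) * y⌋₊ (m - 1) with h | h
    · rw [min_eq_left h]
      exact (Nat.lt_floor_add_one _).le
    · rw [min_eq_right h]
      have h2 : ((m - 1 : ℕ) : ℝ) + 1 = m := by
        rw [Nat.cast_sub hm]
        push_cast
        ring
      rw [h2]
      nlinarith

theorem bl_cells {d m N : ℕ} (hm : 1 ≤ m) {Lam : ℝ} (hL : 0 ≤ Lam) {Ω : Type} [MeasurableSpace Ω]
    {μ : Measure Ω} {G : Ω → SimpleGraph (Fin N)} (h : IsGeo d Lam μ G) :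
    ∃ (t : Fin N → Fin (m ^ d)) (r : Fin (m ^ d) → Fin (m ^ d) → ℝ),
      ∀ i j, i ≠ j → |μ.real {ω | (G ω).Adj i j} - r (t i) (t j)| ≤ 2 * Lam / m := by
  obtain ⟨x, W, hx, hW, hg⟩ := h.geo
  have hm' : (0 : ℝ) < m := by exact_mod_cast hm
  obtain ⟨cell, hcell⟩ : ∃ cell : Fin N → Fin d → Fin m, ∀ i c,
      ((cell i c : ℕ)) = min ⌊(m : ℝ) * x i c⌋₊ (m - 1) :=
    ⟨fun i c => ⟨min ⌊(m : ℝ) * x i c⌋₊ (m - 1), by
      have := min_le_right ⌊(m : ℝ) * x i c⌋₊ (m - 1)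
      omega⟩, fun i c => rfl⟩
  obtain ⟨u, hu⟩ : ∃ u : Fin (m ^ d) → Fin d → ℝ, ∀ a c,
      u a c = (((finFunctionFinEquiv.symm a : Fin d → Fin m) c : ℕ) : ℝ) / m := ⟨_, fun a c => rfl⟩
  refine ⟨fun i => finFunctionFinEquiv (cell i), fun a b => W (u a) (u b), fun i j hij => ?_⟩
  have hu01 : ∀ a c, 0 ≤ u a c ∧ u a c ≤ 1 := by
    intro a c
    rw [hu]
    refine ⟨by positivity, ?_⟩
    rw [div_le_one hm']
    exact_mod_cast ((finFunctionFinEquiv.symm a : Fin d → Fin m) c).2.le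
  have hdist : ∀ i, dist (x i) (u (finFunctionFinEquiv (cell i))) ≤ 1 / m := by
    intro i
    rw [dist_pi_le_iff (by positivity)]
    intro c
    rw [hu, Equiv.symm_apply_apply, hcell, Real.dist_eq, abs_le]
    obtain ⟨h1, h2⟩ := cell_num hm (hx i c).1 (hx i c).2
    constructor
    · have h3 : ((min ⌊(m : ℝ) * x i c⌋₊ (m - 1) : ℕ) : ℝ) / m ≤ x i c := by
        rw [div_le_iff₀ hm']
        linarith
      have h4 : (0 : ℝ) ≤ 1 / m := by positivity
      linarith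
    · have h3 : x i c ≤ (((min ⌊(m : ℝ) * x i c⌋₊ (m - 1) : ℕ) : ℝ) + 1) / m := by
        rw [le_div_iff₀ hm']
        linarith
      rw [add_div] at h3
      linarith
  rw [hg i j hij]
  refine (hW _ _ _ _ (hx i) (hx j) (hu01 _) (hu01 _)).trans ?_
  calc Lam * (dist (x i) (u (finFunctionFinEquiv (cell i))) +
        dist (x j) (u (finFunctionFinEquiv (cell j)))) ≤ Lam * (1 / m + 1 / m) :=
        mul_le_mul_of_nonneg_left (add_le_add (hdist i) (hdist j)) hL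
    _ = 2 * Lam / m := by ring

theorem bl_geo_num {A Lam : ℝ} (hA : 0 ≤ A) (hL : 0 ≤ Lam) : ∀ᶠ k : ℕ in atTop, ∀ d : ℕ,
    (d : ℝ) ≤ A * Real.sqrt k / Real.log k → ∃ m : ℕ, 1 ≤ m ∧
      Real.log ((m ^ d : ℕ) : ℝ) ≤ k / 1000 ∧ 2 * Lam / m ≤ 1 / 1000 ∧
      10 * Real.log ((m ^ d : ℕ) : ℝ) ^ 2 / k + 800 * k * (2 * Lam / m) ^ 2 ≤
        3 * A ^ 2 + 3300 * Lam ^ 2 := by
  have hs : Tendsto (fun k : ℕ => Real.sqrt k) atTop atTop :=
    Real.tendsto_sqrt_atTop.comp tendsto_natCast_atTop_atTop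
  have hl : Tendsto (fun k : ℕ => Real.log k) atTop atTop :=
    Real.tendsto_log_atTop.comp tendsto_natCast_atTop_atTop
  filter_upwards [hs.eventually_ge_atTop (520 * A), hs.eventually_ge_atTop (2000 * Lam),
    hl.eventually_ge_atTop 50, eventually_ge_atTop 1] with k h1 h2 h3 hk d hd
  have hk' : (1 : ℝ) ≤ k := by exact_mod_cast hk
  have hlogs : Real.log (Real.sqrt k) = Real.log k / 2 := Real.log_sqrt (by linarith)
  have hs2 : Real.sqrt k ^ 2 = k := Real.sq_sqrt (by linarith)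
  have hs1 : 1 ≤ Real.sqrt k := Real.one_le_sqrt.2 hk'
  set s : ℝ := Real.sqrt k with hsdef
  have hs0 : 0 < s := by linarith
  have hm1 : s ≤ (⌈s⌉₊ : ℝ) := Nat.le_ceil s
  have hm2 : (⌈s⌉₊ : ℝ) < s + 1 := Nat.ceil_lt_add_one hs0.le
  set m : ℕ := ⌈s⌉₊ with hmdef
  have hm0 : (0 : ℝ) < m := by linarith
  have hm3 : (1 : ℝ) ≤ m := by linarith
  have hlogm0 : 0 ≤ Real.log m := Real.log_nonneg hm3
  have hlogm : Real.log m ≤ 52 / 100 * Real.log k := by
    have e1 : Real.log m ≤ Real.log (s + 1) := Real.log_le_log hm0 hm2.le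
    have e2 : s + 1 = s * (1 + 1 / s) := by
      field_simp
    have e3 : Real.log (1 + 1 / s) ≤ 1 / s := by
      have e4 := Real.log_le_sub_one_of_pos (show 0 < 1 + 1 / s by positivity)
      linarith
    have e5 : 1 / s ≤ 1 := by
      rw [div_le_one hs0]
      exact hs1
    rw [e2, Real.log_mul hs0.ne' (by positivity), hlogs] at e1
    linarith
  have hlogM : Real.log ((m ^ d : ℕ) : ℝ) = d * Real.log m := by
    rw [Nat.cast_pow, Real.log_pow]
  have hlogM0 : 0 ≤ Real.log ((m ^ d : ℕ) : ℝ) := by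
    rw [hlogM]
    positivity
  have hB : Real.log ((m ^ d : ℕ) : ℝ) ≤ 52 / 100 * A * s := by
    rw [hlogM]
    have hlk : 0 < Real.log k := by linarith
    calc (d : ℝ) * Real.log m ≤ (A * s / Real.log k) * (52 / 100 * Real.log k) :=
          mul_le_mul hd hlogm hlogm0 (by positivity)
      _ = 52 / 100 * A * s := by
          field_simp
  have hLm : 2 * Lam / m ≤ 2 * Lam / s :=
    div_le_div_of_nonneg_left (by positivity) hs0 hm1
  refine ⟨m, by exact_mod_cast hm3, ?_, ?_, ?_⟩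
  · refine hB.trans ?_
    rw [← hs2]
    nlinarith
  · refine hLm.trans ?_
    rw [div_le_iff₀ hs0]
    linarith
  · have e1 : 10 * Real.log ((m ^ d : ℕ) : ℝ) ^ 2 / k ≤ 3 * A ^ 2 := by
      rw [div_le_iff₀ (by linarith)]
      have e2 : Real.log ((m ^ d : ℕ) : ℝ) ^ 2 ≤ (52 / 100 * A * s) ^ 2 :=
        pow_le_pow_left₀ hlogM0 hB 2
      have e3 : (52 / 100 * A * s) ^ 2 = 2704 / 10000 * (A ^ 2 * k) := by
        rw [mul_pow, mul_pow, hs2]
        ring
      have e4 : 0 ≤ A ^ 2 * k := by positivity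
      rw [e3] at e2
      linarith
    have e5 : 800 * k * (2 * Lam / m) ^ 2 ≤ 3300 * Lam ^ 2 := by
      have e6 : (2 * Lam / m) ^ 2 ≤ (2 * Lam / s) ^ 2 :=
        pow_le_pow_left₀ (by positivity) hLm 2
      have e7 : 800 * (k : ℝ) * (2 * Lam / s) ^ 2 = 3200 * Lam ^ 2 := by
        rw [div_pow, hs2]
        field_simp
        ring
      have e8 : 800 * (k : ℝ) * (2 * Lam / m) ^ 2 ≤ 800 * (k : ℝ) * (2 * Lam / s) ^ 2 :=
        mul_le_mul_of_nonneg_left e6 (by positivity)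
      nlinarith [sq_nonneg Lam]
    linarith

end Pool.Agent.BLK
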