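import Pool.Agent.BLK.Defs

/-!
# BLK/Low: lower bound and the case of `N` blocks (module BLK-Low)

The uniform random graph is a block model and a geometric model; first moment.
-/

namespace Pool.Agent.BLK

open Finset MeasureTheory ProbabilityTheory Filter Pool.Agent.Helper37.NoisyR

private theorem bl_gu_val {N : ℕ} (i j : Fin N) (hij : i ≠ j) :
    (muU N).real {ω | (GU N ω).Adj i j} = 1 / 2 := by
  have h := nr_GU_noisy (N := N) (q := 1 / 2) le_rfl
  have h1 := h.lower i j hij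
  have h2 := h.upper i j hij
  linarith

private theorem bl_gu_ind (N : ℕ) : IsInd (muU N) (GU N) :=
  ⟨(nr_GU_noisy (N := N) (q := 1 / 2) le_rfl).meas,
    (nr_GU_noisy (N := N) (q := 1 / 2) le_rfl).indep⟩

private theorem bl_gu_small {ε : ℝ} (hε : 0 < ε) (hε1 : ε < 1) :
    ∀ᶠ k : ℕ in atTop, ∀ N : ℕ,
      (N : ℝ) ≤ (1 - ε) * (k / Real.exp 1) * (2 : ℝ) ^ (((k : ℝ) - 1) / 2) →
      (muU N).real {ω | ∃ s : Finset (Fin N), (GU N ω).IsNClique k s ∨
        (GU N ω)ᶜ.IsNClique k s} < 1 / 2 := by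
  have h1 : ∀ᶠ k : ℕ in atTop, (1 - ε) ^ k < 1 / 4 :=
    (tendsto_pow_atTop_nhds_zero_of_lt_one (by linarith) (by linarith)).eventually_lt_const
      (by norm_num)
  filter_upwards [h1, eventually_ge_atTop 1] with k h1 hk N hN
  have hk' : (0 : ℝ) < k := by exact_mod_cast hk
  have h3 := nr_first_moment N k
  have h4 : (N : ℝ) * (Real.exp 1 / k) * (2 : ℝ) ^ (-((k : ℝ) - 1) / 2) ≤ 1 - ε := by
    calc (N : ℝ) * (Real.exp 1 / k) * (2 : ℝ) ^ (-((k : ℝ) - 1) / 2)
        ≤ ((1 - ε) * (k / Real.exp 1) * (2 : ℝ) ^ (((k : ℝ) - 1) / 2)) *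
          (Real.exp 1 / k) * (2 : ℝ) ^ (-((k : ℝ) - 1) / 2) := by
          refine mul_le_mul_of_nonneg_right (mul_le_mul_of_nonneg_right hN (by positivity))
            (by positivity)
      _ = (1 - ε) * ((2 : ℝ) ^ (((k : ℝ) - 1) / 2) * (2 : ℝ) ^ (-((k : ℝ) - 1) / 2)) := by
          field_simp
      _ = 1 - ε := by
          rw [← Real.rpow_add (by norm_num)]
          have : ((k : ℝ) - 1) / 2 + -((k : ℝ) - 1) / 2 = 0 := by ring
          rw [this, Real.rpow_zero, mul_one]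
  have h5 := pow_le_pow_left₀ (by positivity) h4 k
  linarith

theorem bl_det (k N : ℕ) : HomB N (1 / 2) N k ↔ ∀ H : SimpleGraph (Fin N),
    (∃ s : Finset (Fin N), H.IsNClique k s) ∨ (∃ s : Finset (Fin N), Hᶜ.IsNClique k s) := by
  constructor
  · intro h H
    have hb : IsBlk N (Measure.dirac () : Measure Unit) (fun _ => H) := by
      refine ⟨⟨(nr_dirac_noisy H).meas, (nr_dirac_noisy H).indep⟩, id, ?_⟩
      classical
      refine ⟨fun i j => if H.Adj i j then 1 else 0, fun i j _ => ?_⟩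
      by_cases hij : H.Adj i j
      · have h2 : {_ω : Unit | H.Adj i j} = Set.univ := by
          ext ω
          simp [hij]
        rw [h2, probReal_univ]
        simp [hij]
      · have h2 : {_ω : Unit | H.Adj i j} = ∅ := by
          ext ω
          simp [hij]
        rw [h2, measureReal_empty]
        simp [hij]
    have h1 := h Unit (Measure.dirac ()) (fun _ => H) hb
    by_contra hcon
    have h2 : {ω : Unit | ∃ s : Finset (Fin N), H.IsNClique k s ∨ Hᶜ.IsNClique k s} = ∅ := by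
      ext ω
      simp only [Set.mem_ofPred_eq, Set.mem_empty_iff_false, iff_false]
      rintro ⟨s, hs | hs⟩
      · exact hcon (Or.inl ⟨s, hs⟩)
      · exact hcon (Or.inr ⟨s, hs⟩)
    rw [h2, measureReal_empty] at h1
    norm_num at h1
  · intro h Ω _ μ _ G _
    have h2 : {ω | ∃ s : Finset (Fin N), (G ω).IsNClique k s ∨ (G ω)ᶜ.IsNClique k s} =
        Set.univ := by
      ext ω
      simp only [Set.mem_ofPred_eq, Set.mem_univ, iff_true]
      rcases h (G ω) with ⟨s, hs⟩ | ⟨s, hs⟩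
      · exact ⟨s, Or.inl hs⟩
      · exact ⟨s, Or.inr hs⟩
    rw [h2, probReal_univ]
    norm_num

theorem bl_low_blk {ε : ℝ} (hε : 0 < ε) (hε1 : ε < 1) :
    ∀ᶠ k : ℕ in atTop, ∀ M : ℕ, 1 ≤ M → ∀ N : ℕ,
      (N : ℝ) ≤ (1 - ε) * (k / Real.exp 1) * (2 : ℝ) ^ (((k : ℝ) - 1) / 2) →
      ¬ HomB M (1 / 2) N k := by
  filter_upwards [bl_gu_small hε hε1] with k hk M hM N hN hcon
  have := nr_muU_prob N
  have h2 := hcon _ (muU N) (GU N) ⟨bl_gu_ind N, fun _ => ⟨0, by omega⟩, fun _ _ => 1 / 2,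
    fun i j hij => bl_gu_val i j hij⟩
  have h3 := hk N hN
  linarith

theorem bl_low_geo {ε : ℝ} (hε : 0 < ε) (hε1 : ε < 1) :
    ∀ᶠ k : ℕ in atTop, ∀ (d : ℕ) (Lam : ℝ), 0 ≤ Lam → ∀ N : ℕ,
      (N : ℝ) ≤ (1 - ε) * (k / Real.exp 1) * (2 : ℝ) ^ (((k : ℝ) - 1) / 2) →
      ¬ HomG d Lam (1 / 2) N k := by
  filter_upwards [bl_gu_small hε hε1] with k hk d Lam hL N hN hcon
  have := nr_muU_prob N
  have h2 := hcon _ (muU N) (GU N) ⟨bl_gu_ind N, fun _ _ => 0, fun _ _ => 1 / 2,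
    fun _ _ => ⟨le_rfl, zero_le_one⟩, fun u v u' v' _ _ _ _ => by
      rw [sub_self, abs_zero]
      positivity, fun i j hij => bl_gu_val i j hij⟩
  have h3 := hk N hN
  linarith

end Pool.Agent.BLK
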