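import Pool.Agent.BLK.Core
import Pool.Agent.BLK.Geo
import Pool.Agent.BLK.Low

/-!
# BLK/Main: conclusion (module BLK-Main)
-/

namespace Pool.Agent.BLK

open Finset MeasureTheory ProbabilityTheory Filter Pool.Agent.Helper37.NoisyR

private theorem ub_num {e1 ε K X : ℝ} (he : e1 = ε / 8) (hε : 0 < ε) (hε1 : ε < 1) (hK : 1 ≤ K)
    (hX : 0 < X) (h : 1 ≤ e1 * X) : (1 + e1) * K * X + 1 ≤ (1 + ε) * K * X := by
  have h1 : e1 * X ≤ e1 * K * X := by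
    refine mul_le_mul_of_nonneg_right ?_ hX.le
    exact le_mul_of_one_le_right (by linarith) hK
  have h2 : 0 ≤ K * X := by positivity
  have h3 : (1 + e1) + e1 ≤ 1 + ε := by linarith
  calc (1 + e1) * K * X + 1 ≤ (1 + e1) * K * X + e1 * K * X := by linarith
    _ = ((1 + e1) + e1) * (K * X) := by ring
    _ ≤ (1 + ε) * (K * X) := mul_le_mul_of_nonneg_right h3 h2
    _ = _ := by ring

private theorem ev_one {e1 : ℝ} (he1 : 0 < e1) : ∀ᶠ k : ℕ in atTop,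
    1 ≤ e1 * (((k : ℝ) / Real.exp 1) * (2 : ℝ) ^ (((k : ℝ) - 1) / 2)) := by
  have h1 : ∀ᶠ k : ℕ in atTop, 1 ≤ e1 * ((k : ℝ) / Real.exp 1) := by
    have h2 : Tendsto (fun k : ℕ => e1 * ((k : ℝ) / Real.exp 1)) atTop atTop := by
      refine Tendsto.const_mul_atTop he1 ?_
      exact (tendsto_natCast_atTop_atTop).atTop_div_const (Real.exp_pos 1)
    exact h2.eventually_ge_atTop 1
  filter_upwards [h1, eventually_ge_atTop 1] with k h1 hk
  have hk' : (1 : ℝ) ≤ k := by exact_mod_cast hk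
  have hE := Real.exp_pos 1
  have h5 : (1 : ℝ) ≤ (2 : ℝ) ^ (((k : ℝ) - 1) / 2) :=
    Real.one_le_rpow (by norm_num) (by linarith)
  calc (1 : ℝ) ≤ e1 * ((k : ℝ) / Real.exp 1) := h1
    _ ≤ e1 * ((k : ℝ) / Real.exp 1) * (2 : ℝ) ^ (((k : ℝ) - 1) / 2) :=
        le_mul_of_one_le_right (by positivity) h5
    _ = _ := by ring

/-- the common part of the two theorems -/
private theorem win_core {ε e1 K : ℝ} (he : e1 = ε / 8) (hε : 0 < ε) (hε1 : ε < 1) (hK : 1 ≤ K)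
    (k : ℕ) (hk : 1 ≤ k)
    (h1 : 1 ≤ e1 * (((k : ℝ) / Real.exp 1) * (2 : ℝ) ^ (((k : ℝ) - 1) / 2)))
    (S : Set ℕ)
    (hup : ∀ N : ℕ, (1 + e1) * K * (((k : ℝ) / Real.exp 1) * (2 : ℝ) ^ (((k : ℝ) - 1) / 2)) ≤ N →
      N ∈ S)
    (hlow : ∀ N : ℕ, (N : ℝ) ≤ (1 - ε) * (k / Real.exp 1) * (2 : ℝ) ^ (((k : ℝ) - 1) / 2) →
      N ∉ S) :
    (1 - ε) / (Real.exp 1 * Real.sqrt 2) * (k * (2 : ℝ) ^ ((k : ℝ) / 2)) ≤ ((sInf S : ℕ) : ℝ) ∧
      ((sInf S : ℕ) : ℝ) ≤ (1 + ε) * K /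
        (Real.exp 1 * Real.sqrt 2) * (k * (2 : ℝ) ^ ((k : ℝ) / 2)) := by
  have hk' : (1 : ℝ) ≤ k := by exact_mod_cast hk
  have hE := Real.exp_pos 1
  have hXk : 1 / (Real.exp 1 * Real.sqrt 2) * (k * (2 : ℝ) ^ ((k : ℝ) / 2)) =
      ((k : ℝ) / Real.exp 1) * (2 : ℝ) ^ (((k : ℝ) - 1) / 2) := (nr_two_pow k).symm
  set X : ℝ := ((k : ℝ) / Real.exp 1) * (2 : ℝ) ^ (((k : ℝ) - 1) / 2) with hX
  have hX0 : 0 < X := by positivity
  have he10 : 0 < e1 := by rw [he]; positivity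
  have hNS : ⌈(1 + e1) * K * X⌉₊ ∈ S := hup _ (Nat.le_ceil _)
  have hle : sInf S ≤ ⌈(1 + e1) * K * X⌉₊ := Nat.sInf_le hNS
  have hmem : sInf S ∈ S := Nat.sInf_mem ⟨_, hNS⟩
  constructor
  · have h5 : (1 - ε) / (Real.exp 1 * Real.sqrt 2) * (k * (2 : ℝ) ^ ((k : ℝ) / 2)) =
        (1 - ε) * X := by
      rw [← hXk]
      ring
    rw [h5]
    by_contra hcon
    push Not at hcon
    refine hlow (sInf S) ?_ hmem
    rw [mul_assoc]
    exact hcon.le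
  · have h5 : (1 + ε) * K / (Real.exp 1 * Real.sqrt 2) *
          (k * (2 : ℝ) ^ ((k : ℝ) / 2)) = (1 + ε) * K * X := by
      rw [← hXk]
      ring
    rw [h5]
    have h6 : ((sInf S : ℕ) : ℝ) ≤ (⌈(1 + e1) * K * X⌉₊ : ℕ) := by exact_mod_cast hle
    have h7 : ((⌈(1 + e1) * K * X⌉₊ : ℕ) : ℝ) < (1 + e1) * K * X + 1 :=
      Nat.ceil_lt_add_one (by positivity)
    have h9 := ub_num he hε hε1 hK hX0 h1
    linarith

theorem bl_blk {ε : ℝ} (hε : 0 < ε) (hε1 : ε < 1) :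
    ∀ᶠ k : ℕ in atTop, ∀ M : ℕ, 1 ≤ M → Real.log M ≤ k / 1000 →
      (1 - ε) / (Real.exp 1 * Real.sqrt 2) * (k * (2 : ℝ) ^ ((k : ℝ) / 2)) ≤ (RB M k : ℝ) ∧
      (RB M k : ℝ) ≤ (1 + ε) * Real.exp (10 * Real.log M ^ 2 / k) /
        (Real.exp 1 * Real.sqrt 2) * (k * (2 : ℝ) ^ ((k : ℝ) / 2)) := by
  set e1 : ℝ := ε / 8 with he1
  have he10 : 0 < e1 := by positivity
  have he11 : e1 ≤ 1 / 8 := by linarith
  filter_upwards [ev_one he10, bl_core he10, bl_low_blk hε hε1, eventually_ge_atTop 1] with k h1 h3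
    h4 hk M hM hlogM
  have hk' : (0 : ℝ) ≤ k := Nat.cast_nonneg k
  refine win_core he1 hε hε1 (Real.one_le_exp (by positivity)) k hk h1
    {N : ℕ | HomB M (1 / 2) N k} ?_ (h4 M hM)
  intro N hN Ω _ μ _ G hG
  obtain ⟨t, p, htp⟩ := hG.block
  have h5 := h3 M 0 hM hlogM le_rfl (by norm_num) N (by
    have h6 : 10 * Real.log M ^ 2 / k + 800 * k * (0 : ℝ) ^ 2 = 10 * Real.log M ^ 2 / k := by
      ring
    rw [h6]
    exact hN) Ω μ G hG.toIsInd t p (fun i j hij => by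
      rw [htp i j hij, sub_self, abs_zero])
  linarith

theorem bl_geo {A Lam ε : ℝ} (hA : 0 ≤ A) (hL : 0 ≤ Lam) (hε : 0 < ε) (hε1 : ε < 1) :
    ∀ᶠ k : ℕ in atTop, ∀ d : ℕ, (d : ℝ) ≤ A * Real.sqrt k / Real.log k →
      (1 - ε) / (Real.exp 1 * Real.sqrt 2) * (k * (2 : ℝ) ^ ((k : ℝ) / 2)) ≤ (RG d Lam k : ℝ) ∧
      (RG d Lam k : ℝ) ≤ (1 + ε) * Real.exp (3 * A ^ 2 + 3300 * Lam ^ 2) /
        (Real.exp 1 * Real.sqrt 2) * (k * (2 : ℝ) ^ ((k : ℝ) / 2)) := by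
  set e1 : ℝ := ε / 8 with he1
  have he10 : 0 < e1 := by positivity
  have he11 : e1 ≤ 1 / 8 := by linarith
  filter_upwards [ev_one he10, bl_core he10, bl_low_geo hε hε1, bl_geo_num hA hL,
    eventually_ge_atTop 1] with k h1 h3 h4 hnum hk d hd
  obtain ⟨m, hm, hm1, hm2, hm3⟩ := hnum d hd
  have hk' : (0 : ℝ) ≤ k := Nat.cast_nonneg k
  refine win_core he1 hε hε1 (Real.one_le_exp (by positivity)) k hk h1
    {N : ℕ | HomG d Lam (1 / 2) N k} ?_ (h4 d Lam hL)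
  intro N hN Ω _ μ _ G hG
  obtain ⟨t, r, htr⟩ := bl_cells hm hL hG
  have h5 := h3 (m ^ d) (2 * Lam / m) (Nat.one_le_pow _ _ hm) hm1 (by positivity) hm2 N (by
    refine le_trans ?_ hN
    refine mul_le_mul_of_nonneg_right ?_ (by positivity)
    exact mul_le_mul_of_nonneg_left (Real.exp_le_exp.2 hm3) (by linarith)) Ω μ G hG.toIsInd t r htr
  linarith

theorem bl_lim (M : ℕ → ℕ) (hM : ∀ k, 1 ≤ M k)
    (hlim : Tendsto (fun k : ℕ => Real.log (M k) / Real.sqrt k) atTop (nhds 0)) :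
    Tendsto (fun k : ℕ => (RB (M k) k : ℝ) / (k * (2 : ℝ) ^ ((k : ℝ) / 2))) atTop
      (nhds (1 / (Real.exp 1 * Real.sqrt 2))) := by
  rw [Metric.tendsto_atTop]
  intro ε hε
  set c : ℝ := 1 / (Real.exp 1 * Real.sqrt 2) with hc
  have hc0 : 0 < c := by positivity
  have hc1 : c ≤ 1 := by
    rw [hc, div_le_one (by positivity)]
    have h1 : (1 : ℝ) ≤ Real.exp 1 := Real.one_le_exp zero_le_one
    have h2 : (1 : ℝ) ≤ Real.sqrt 2 := by
      rw [Real.one_le_sqrt]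
      norm_num
    nlinarith
  set d : ℝ := min (ε / 4) (1 / 4) with hd
  have hd0 : 0 < d := lt_min (by positivity) (by norm_num)
  have hd1 : d ≤ 1 / 4 := min_le_right _ _
  have hd2 : d ≤ ε / 4 := min_le_left _ _
  have h1 := bl_blk hd0 (by linarith)
  have h2 : ∀ᶠ k : ℕ in atTop, Real.log (M k) / Real.sqrt k ≤ min (d / 5) (1 / 1000) :=
    hlim.eventually_le_const (lt_min (by positivity) (by norm_num))
  have h3 := (h1.and (h2.and (eventually_ge_atTop 1)))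
  obtain ⟨k0, hk0⟩ := eventually_atTop.1 h3
  refine ⟨k0, fun k hk => ?_⟩
  obtain ⟨h4, h5, h6⟩ := hk0 k hk
  have hk1 : (1 : ℝ) ≤ k := by exact_mod_cast h6
  have hsq : 0 < Real.sqrt k := Real.sqrt_pos.2 (by linarith)
  have hsq2 : Real.sqrt k ^ 2 = k := Real.sq_sqrt (by linarith)
  have hsqk : Real.sqrt k ≤ k := by
    have h7 : 1 ≤ Real.sqrt k := Real.one_le_sqrt.2 hk1
    nlinarith
  have hlog0 : 0 ≤ Real.log (M k) := Real.log_nonneg (by exact_mod_cast hM k)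
  have h51 : Real.log (M k) ≤ d / 5 * Real.sqrt k := by
    have h8 := h5.trans (min_le_left _ _)
    rwa [div_le_iff₀ hsq] at h8
  have h52 : Real.log (M k) ≤ 1 / 1000 * Real.sqrt k := by
    have h8 := h5.trans (min_le_right _ _)
    rwa [div_le_iff₀ hsq] at h8
  obtain ⟨h8, h9⟩ := h4 (M k) (hM k) (by linarith)
  have hexp : Real.exp (10 * Real.log (M k) ^ 2 / k) ≤ 1 + d := by
    have e1 : 10 * Real.log (M k) ^ 2 / k ≤ 10 * (d / 5) ^ 2 := by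
      rw [div_le_iff₀ (by linarith)]
      have e2 : Real.log (M k) ^ 2 ≤ (d / 5 * Real.sqrt k) ^ 2 :=
        pow_le_pow_left₀ hlog0 h51 2
      rw [mul_pow, hsq2] at e2
      linarith
    have e3 : 0 ≤ 10 * Real.log (M k) ^ 2 / k := by positivity
    have e4 : |10 * Real.log (M k) ^ 2 / k| ≤ 1 := by
      rw [abs_of_nonneg e3]
      nlinarith
    have e5 := (abs_le.1 (Real.abs_exp_sub_one_le e4)).2
    rw [abs_of_nonneg e3] at e5
    nlinarith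
  set Y : ℝ := (k : ℝ) * (2 : ℝ) ^ ((k : ℝ) / 2) with hY
  have hY0 : 0 < Y := by positivity
  have h10 : (1 - d) * c ≤ (RB (M k) k : ℝ) / Y := by
    rw [le_div_iff₀ hY0]
    refine le_trans (le_of_eq ?_) h8
    rw [hc]
    ring
  have h11 : (RB (M k) k : ℝ) / Y ≤ (1 + d) * Real.exp (10 * Real.log (M k) ^ 2 / k) * c := by
    rw [div_le_iff₀ hY0]
    refine h9.trans (le_of_eq ?_)
    rw [hc]
    ring
  rw [Real.dist_eq, abs_lt]
  have h12 : (1 + d) * Real.exp (10 * Real.log (M k) ^ 2 / k) * c ≤ c + 3 * d := by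
    have h13 : (1 + d) * Real.exp (10 * Real.log (M k) ^ 2 / k) ≤ (1 + d) * (1 + d) :=
      mul_le_mul_of_nonneg_left hexp (by linarith)
    have h14 : (1 + d) * (1 + d) ≤ 1 + 3 * d := by nlinarith
    calc (1 + d) * Real.exp (10 * Real.log (M k) ^ 2 / k) * c ≤ (1 + 3 * d) * c :=
          mul_le_mul_of_nonneg_right (h13.trans h14) hc0.le
      _ = c + 3 * d * c := by ring
      _ ≤ c + 3 * d := by nlinarith
  constructor
  · nlinarith
  · linarith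

end Pool.Agent.BLK
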