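import Pool.Agent.BLK.Defs

/-!
# BLK/Num: the inequalities for biased classes (module BLK-Num)

`LL k M = log M + 5 log k`.  All inequalities are compared between exponentials by taking logarithms.
-/

namespace Pool.Agent.BLK

open Filter

/-- `log M + 5 log k` -/
noncomputable def LL (k M : ℕ) : ℝ := Real.log M + 5 * Real.log k

private theorem bln_large : ∀ᶠ k : ℕ in atTop, 1000 ≤ (k : ℝ) ∧ Real.log k ≤ k / 50000 := by
  have h1 : ∀ᶠ x : ℝ in atTop, ‖Real.log x‖ ≤ (1 / 50000) * ‖x‖ :=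
    Real.isLittleO_log_id_atTop.def (by norm_num)
  have h2 : ∀ᶠ k : ℕ in atTop, ‖Real.log (k : ℝ)‖ ≤ (1 / 50000) * ‖(k : ℝ)‖ :=
    tendsto_natCast_atTop_atTop.eventually h1
  have h3 : ∀ᶠ k : ℕ in atTop, (1000 : ℝ) ≤ (k : ℝ) :=
    tendsto_natCast_atTop_atTop.eventually (eventually_ge_atTop 1000)
  filter_upwards [h2, h3] with k hk hk'
  refine ⟨hk', ?_⟩
  have h4 : (0 : ℝ) ≤ (k : ℝ) := by linarith
  rw [Real.norm_of_nonneg h4] at hk
  have h5 := le_trans (Real.le_norm_self _) hk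
  linarith

private theorem bln_size {k M : ℕ} (hk : 1000 ≤ (k : ℝ)) (hl : Real.log k ≤ k / 50000) (hM : 1 ≤ M)
    (hMk : Real.log M ≤ k / 1000) : 0 ≤ LL k M ∧ LL k M / k ≤ 11 / 10000 := by
  have h1 : 0 ≤ Real.log M := Real.log_nonneg (by exact_mod_cast hM)
  have h2 : 0 ≤ Real.log k := Real.log_nonneg (by linarith)
  unfold LL
  refine ⟨by linarith, ?_⟩
  rw [div_le_iff₀ (by linarith)]
  linarith

private theorem bln_conv {k M : ℕ} (hk : 1000 ≤ (k : ℝ)) (hM : 1 ≤ M) {N E : ℝ}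
    (hN : ((k : ℝ) / Real.exp 1) * (2 : ℝ) ^ (((k : ℝ) - 1) / 2) ≤ N)
    (hE : LL k M + E ≤ Real.log k - 1 + Real.log 2 * (((k : ℝ) - 1) / 2)) :
    (k : ℝ) ^ 3 * Real.exp E ≤ N / ((k : ℝ) ^ 2 * M) := by
  have hk0 : (0 : ℝ) < k := by linarith
  have hM0 : (0 : ℝ) < M := by exact_mod_cast hM
  have hL : Real.exp (LL k M) = M * (k : ℝ) ^ 5 := by
    have h5 : (5 : ℝ) * Real.log k = Real.log ((k : ℝ) ^ 5) := by
      rw [Real.log_pow]
      norm_num
    rw [LL, Real.exp_add, Real.exp_log hM0, h5, Real.exp_log (by positivity)]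
  have hR : ((k : ℝ) / Real.exp 1) * (2 : ℝ) ^ (((k : ℝ) - 1) / 2) =
      Real.exp (Real.log k - 1 + Real.log 2 * (((k : ℝ) - 1) / 2)) := by
    rw [Real.exp_add, Real.exp_sub, Real.exp_log hk0, ← Real.rpow_def_of_pos (by norm_num)]
  rw [le_div_iff₀ (by positivity)]
  calc (k : ℝ) ^ 3 * Real.exp E * ((k : ℝ) ^ 2 * M) = Real.exp (LL k M) * Real.exp E := by
        rw [hL]
        ring
    _ = Real.exp (LL k M + E) := (Real.exp_add _ _).symm
    _ ≤ Real.exp (Real.log k - 1 + Real.log 2 * (((k : ℝ) - 1) / 2)) := Real.exp_le_exp.2 hE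
    _ = ((k : ℝ) / Real.exp 1) * (2 : ℝ) ^ (((k : ℝ) - 1) / 2) := hR.symm
    _ ≤ N := hN

/-- lower bound for the logarithm -/
private theorem bln_log_ge {x : ℝ} (hx : 0 ≤ x) : x - x ^ 2 / 2 ≤ Real.log (1 + x) := by
  have h := Real.le_log_one_add_of_nonneg hx
  refine le_trans ?_ h
  rw [le_div_iff₀ (by linarith)]
  nlinarith [pow_nonneg hx 3, mul_nonneg hx (sq_nonneg x)]

private theorem bln_half_add {g : ℝ} (hg : 0 ≤ g) :
    -Real.log (1 / 2 + g) ≤ Real.log 2 - 2 * g + 2 * g ^ 2 := by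
  have h1 : (1 / 2 + g) = (1 + 2 * g) / 2 := by ring
  rw [h1, Real.log_div (by positivity) (by norm_num)]
  have h2 := bln_log_ge (x := 2 * g) (by linarith)
  nlinarith

private theorem bln_half_sub {g : ℝ} (hg : 0 ≤ g) (hg1 : g ≤ 4 / 1000) :
    -Real.log (1 / 2 - g) ≤ Real.log 2 + 2 * g + 404 / 100 * g ^ 2 := by
  have h1 : (1 / 2 - g) = (1 - 2 * g) / 2 := by ring
  have h0 : 0 < 1 - 2 * g := by linarith
  rw [h1, Real.log_div h0.ne' (by norm_num)]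
  have h2 : -Real.log (1 - 2 * g) ≤ (1 - 2 * g)⁻¹ - 1 := by
    rw [← Real.log_inv]
    exact Real.log_le_sub_one_of_pos (by positivity)
  have h3 : (1 - 2 * g)⁻¹ - 1 ≤ 2 * g + 404 / 100 * g ^ 2 := by
    have h4 : (1 - 2 * g)⁻¹ ≤ 1 + 2 * g + 404 / 100 * g ^ 2 := by
      rw [inv_le_comm₀ h0 (by positivity), inv_eq_one_div, div_le_iff₀ (by positivity)]
      nlinarith [mul_nonneg hg (sq_nonneg g), mul_nonneg (sq_nonneg g) (sub_nonneg.2 hg1)]
    linarith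
  linarith

theorem bl_num1 : ∀ᶠ k : ℕ in atTop, ∀ M : ℕ, 1 ≤ M → Real.log M ≤ k / 1000 → ∀ N : ℝ,
    ((k : ℝ) / Real.exp 1) * (2 : ℝ) ^ (((k : ℝ) - 1) / 2) ≤ N →
    (k : ℝ) ^ 3 * Real.exp (-Real.log (1 / 2 + 101 / 100 * LL k M / k) * (k - 1) / 2) ≤
      N / ((k : ℝ) ^ 2 * M) := by
  filter_upwards [bln_large] with k hk M hM hMk N hN
  obtain ⟨hk1, hl⟩ := hk
  obtain ⟨h0, h1⟩ := bln_size hk1 hl hM hMk
  refine bln_conv hk1 hM hN ?_
  have hk0 : (0 : ℝ) < k := by linarith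
  obtain ⟨y, hy⟩ : ∃ y, y = LL k M / k := ⟨_, rfl⟩
  have hy0 : 0 ≤ y := by
    rw [hy]
    positivity
  have hy1 : y ≤ 11 / 10000 := by
    rw [hy]
    exact h1
  have hL : LL k M = y * k := by
    rw [hy, div_mul_cancel₀ _ hk0.ne']
  have hg : 101 / 100 * LL k M / k = 101 / 100 * y := by
    rw [hy]
    ring
  have h2 := bln_half_add (g := 101 / 100 * y) (by positivity)
  have hlk : 1 ≤ Real.log k := by
    rw [Real.le_log_iff_exp_le hk0]
    have := Real.exp_one_lt_d9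
    linarith
  rw [hg, hL]
  have h3 : -Real.log (1 / 2 + 101 / 100 * y) * (k - 1) / 2 ≤
      (Real.log 2 - 2 * (101 / 100 * y) + 2 * (101 / 100 * y) ^ 2) * (k - 1) / 2 := by
    have : (0 : ℝ) ≤ k - 1 := by linarith
    have h4 := mul_le_mul_of_nonneg_right h2 this
    linarith
  refine le_trans (add_le_add_right h3 _) ?_
  have h5 : y * k ≤ ((101 / 100 * y) - (101 / 100 * y) ^ 2) * (k - 1) := by
    have h6 : (101 / 100 * y) - (101 / 100 * y) ^ 2 ≥ 10080 / 10000 * y := by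
      nlinarith
    have h7 : ((101 / 100 * y) - (101 / 100 * y) ^ 2) * (k - 1) ≥ 10080 / 10000 * y * (k - 1) :=
      mul_le_mul_of_nonneg_right h6 (by linarith)
    have h8 : 10080 / 10000 * y * (k - 1) - y * k = y * (80 / 10000 * k - 10080 / 10000) := by ring
    have h9 : 0 ≤ y * (80 / 10000 * k - 10080 / 10000) := mul_nonneg hy0 (by linarith)
    linarith
  have h10 : (Real.log 2 - 2 * (101 / 100 * y) + 2 * (101 / 100 * y) ^ 2) * (k - 1) / 2 =
      Real.log 2 * ((k - 1) / 2) - ((101 / 100 * y) - (101 / 100 * y) ^ 2) * (k - 1) := by ring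
  rw [h10]
  linarith

theorem bl_num2 : ∀ᶠ k : ℕ in atTop, ∀ (M : ℕ) (om : ℝ), 1 ≤ M → Real.log M ≤ k / 1000 →
    0 ≤ om → om ≤ 1 / 1000 → ∀ N : ℝ,
    ((k : ℝ) / Real.exp 1) * (2 : ℝ) ^ (((k : ℝ) - 1) / 2) ≤ N →
    (k : ℝ) ^ 3 * Real.exp ((-Real.log (1 / 2 - (101 / 100 * LL k M / k + 2 * om)) * (k / 2) +
      -Real.log (1 / 2 + (305 / 100 * LL k M / k + 21 / 10 * om)) * ((k + 1) / 2)) / 2) ≤
      N / ((k : ℝ) ^ 2 * M) := by
  filter_upwards [bln_large] with k hk M om hM hMk ho0 ho1 N hN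
  obtain ⟨hk1, hl⟩ := hk
  obtain ⟨h0, h1⟩ := bln_size hk1 hl hM hMk
  refine bln_conv hk1 hM hN ?_
  have hk0 : (0 : ℝ) < k := by linarith
  obtain ⟨y, hy⟩ : ∃ y, y = LL k M / k := ⟨_, rfl⟩
  have hy0 : 0 ≤ y := by
    rw [hy]
    positivity
  have hy1 : y ≤ 11 / 10000 := by
    rw [hy]
    exact h1
  have hL : LL k M = y * k := by
    rw [hy, div_mul_cancel₀ _ hk0.ne']
  have hg : 101 / 100 * LL k M / k = 101 / 100 * y := by
    rw [hy]
    ring
  have hg2 : 305 / 100 * LL k M / k = 305 / 100 * y := by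
    rw [hy]
    ring
  obtain ⟨g, hgd⟩ : ∃ g, g = 101 / 100 * y + 2 * om := ⟨_, rfl⟩
  obtain ⟨h, hhd⟩ : ∃ h, h = 305 / 100 * y + 21 / 10 * om := ⟨_, rfl⟩
  rw [hg, hg2, hL, ← hgd, ← hhd]
  have hg0 : 0 ≤ g := by
    rw [hgd]
    positivity
  have hg1 : g ≤ 3111 / 1000000 := by
    rw [hgd]
    linarith
  have hh0 : 0 ≤ h := by
    rw [hhd]
    positivity
  have hh1 : h ≤ 5455 / 1000000 := by
    rw [hhd]
    linarith
  have a1 := bln_half_sub hg0 (by linarith)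
  have a2 := bln_half_add hh0
  have hlk : 2 ≤ Real.log k := by
    rw [Real.le_log_iff_exp_le hk0]
    have h3 := Real.exp_one_lt_d9
    have h4 : Real.exp 2 = Real.exp 1 * Real.exp 1 := by
      rw [← Real.exp_add]
      norm_num
    have h5 := Real.exp_pos 1
    nlinarith
  have hlog2 := Real.log_two_lt_d9
  have b1 : -Real.log (1 / 2 - g) * (k / 2) ≤
      (Real.log 2 + 2 * g + 404 / 100 * g ^ 2) * (k / 2) :=
    mul_le_mul_of_nonneg_right a1 (by linarith)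
  have b2 : -Real.log (1 / 2 + h) * ((k + 1) / 2) ≤
      (Real.log 2 - 2 * h + 2 * h ^ 2) * ((k + 1) / 2) :=
    mul_le_mul_of_nonneg_right a2 (by linarith)
  have c1 : g + 202 / 100 * g ^ 2 ≤ 10063 / 10000 * g := by nlinarith
  have c2 : 9945 / 10000 * h ≤ h - h ^ 2 := by nlinarith
  have c3 : 2 * y ≤ 9945 / 10000 * h - 10063 / 10000 * g := by
    rw [hgd, hhd]
    linarith
  have c4 : 2 * y ≤ (h - h ^ 2) - (g + 202 / 100 * g ^ 2) := by linarith
  have c5 : (2 * y) * (k / 2) ≤ ((h - h ^ 2) - (g + 202 / 100 * g ^ 2)) * (k / 2) :=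
    mul_le_mul_of_nonneg_right c4 (by linarith)
  have c6 : 0 ≤ h - h ^ 2 := by nlinarith
  have c7 : ((Real.log 2 + 2 * g + 404 / 100 * g ^ 2) * (k / 2) +
      (Real.log 2 - 2 * h + 2 * h ^ 2) * ((k + 1) / 2)) / 2 =
      Real.log 2 * (k / 2) + Real.log 2 / 4 - ((h - h ^ 2) - (g + 202 / 100 * g ^ 2)) * (k / 2) -
        (h - h ^ 2) / 2 := by ring
  have c8 : (-Real.log (1 / 2 - g) * (k / 2) + -Real.log (1 / 2 + h) * ((k + 1) / 2)) / 2 ≤
      Real.log 2 * (k / 2) + Real.log 2 / 4 - ((h - h ^ 2) - (g + 202 / 100 * g ^ 2)) * (k / 2) -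
        (h - h ^ 2) / 2 := by
    rw [← c7]
    linarith
  have c9 : Real.log 2 * (((k : ℝ) - 1) / 2) = Real.log 2 * (k / 2) - Real.log 2 / 2 := by ring
  rw [c9]
  linarith

/-- the sizes of the quantities -/
theorem bl_num0 : ∀ᶠ k : ℕ in atTop, ∀ M : ℕ, 1 ≤ M → Real.log M ≤ k / 1000 →
    0 ≤ LL k M ∧ LL k M / k ≤ 11 / 10000 := by
  filter_upwards [bln_large] with k hk M hM hMk
  exact bln_size hk.1 hk.2 hM hMk

end Pool.Agent.BLK
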