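import Pool.Agent.BLK.Defs

/-!
# BLK/Sub: restriction to a set of vertices (module BLK-Sub)
-/

namespace Pool.Agent.BLK

open MeasureTheory ProbabilityTheory Pool.Agent.Helper37.NoisyR

theorem bl_sub_ind {N N' : ℕ} (f : Fin N' ↪o Fin N) {Ω : Type} [MeasurableSpace Ω]
    {μ : Measure Ω} {G : Ω → SimpleGraph (Fin N)} (h : IsInd μ G) :
    IsInd μ (fun ω => (G ω).comap f) := by
  refine ⟨fun i j => h.meas (f i) (f j), ?_⟩
  have hg : Function.Injective (fun e : {p : Fin N' × Fin N' // p.1 < p.2} =>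
      (⟨(f e.1.1, f e.1.2), f.strictMono e.2⟩ : {p : Fin N × Fin N // p.1 < p.2})) := by
    rintro ⟨⟨a, b⟩, h1⟩ ⟨⟨c, d⟩, h2⟩ h3
    have h4 := congrArg Subtype.val h3
    have h5 : f a = f c := congrArg Prod.fst h4
    have h6 : f b = f d := congrArg Prod.snd h4
    have h7 := f.injective h5
    have h8 := f.injective h6
    subst h7
    subst h8
    rfl
  exact h.indep.precomp hg

theorem bl_sub_hom {N N' k : ℕ} (f : Fin N' ↪o Fin N) (H : SimpleGraph (Fin N))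
    (h : ∃ s : Finset (Fin N'), (H.comap f).IsNClique k s ∨ (H.comap f)ᶜ.IsNClique k s) :
    ∃ s : Finset (Fin N), H.IsNClique k s ∨ Hᶜ.IsNClique k s := by
  obtain ⟨s, hs⟩ := h
  refine ⟨s.map f.toEmbedding, ?_⟩
  rcases hs with hs | hs
  · left
    rw [SimpleGraph.isNClique_iff, SimpleGraph.isClique_iff] at hs ⊢
    refine ⟨?_, by rw [Finset.card_map, hs.2]⟩
    intro a ha b hb hab
    rw [Finset.mem_coe, Finset.mem_map] at ha hb
    obtain ⟨a', ha', rfl⟩ := ha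
    obtain ⟨b', hb', rfl⟩ := hb
    exact hs.1 (Finset.mem_coe.2 ha') (Finset.mem_coe.2 hb') fun he => hab (by rw [he])
  · right
    rw [SimpleGraph.isNClique_iff, SimpleGraph.isClique_iff] at hs ⊢
    refine ⟨?_, by rw [Finset.card_map, hs.2]⟩
    intro a ha b hb hab
    rw [Finset.mem_coe, Finset.mem_map] at ha hb
    obtain ⟨a', ha', rfl⟩ := ha
    obtain ⟨b', hb', rfl⟩ := hb
    have h1 := hs.1 (Finset.mem_coe.2 ha') (Finset.mem_coe.2 hb') fun he => hab (by rw [he])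
    rw [SimpleGraph.compl_adj] at h1 ⊢
    exact ⟨hab, h1.2⟩

theorem bl_sub_noisy {N N' : ℕ} (f : Fin N' ↪o Fin N) {Ω : Type} [MeasurableSpace Ω]
    {μ : Measure Ω} {G : Ω → SimpleGraph (Fin N)} (h : IsInd μ G) {q : ℝ}
    (hq : ∀ i j : Fin N', i ≠ j → q ≤ μ.real {ω | (G ω).Adj (f i) (f j)} ∧
      μ.real {ω | (G ω).Adj (f i) (f j)} ≤ 1 - q) :
    IsNoisy q μ (fun ω => (G ω).comap f) := by
  have h1 := bl_sub_ind f h
  exact ⟨h1.meas, h1.indep, fun i j hij => (hq i j hij).1, fun i j hij => (hq i j hij).2⟩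

end Pool.Agent.BLK
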