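import Pool.Agent.BLK.Defs

/-!
# BLK/Wt: uniform weights on the sets with `k1` elements in `A` and `k2` in `B` (module BLK-Wt)
-/

namespace Pool.Agent.BLK

open Finset

theorem bl_ratio {a j l : ℕ} (h1 : l ≤ j) (h2 : j ≤ a) :
    ((a - l).choose (j - l) : ℝ) * (a : ℝ) ^ l ≤ (j : ℝ) ^ l * (a.choose j : ℝ) := by
  induction l with
  | zero => simp
  | succ l ih =>
    have ih := ih (by omega)
    have hal : 0 < a - l := by omega
    have e1 : (a - l) * (a - (l + 1)).choose (j - (l + 1)) = (a - l).choose (j - l) * (j - l) := by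
      have h := Nat.add_one_mul_choose_eq (a - (l + 1)) (j - (l + 1))
      rw [show a - (l + 1) + 1 = a - l by omega, show j - (l + 1) + 1 = j - l by omega] at h
      exact h
    have e2 : (((a - l : ℕ) : ℝ)) * ((a - (l + 1)).choose (j - (l + 1)) : ℝ) =
        ((a - l).choose (j - l) : ℝ) * ((j - l : ℕ) : ℝ) := by exact_mod_cast e1
    have hl1 : l ≤ a := by omega
    have hl2 : l ≤ j := by omega
    have hal' : (0 : ℝ) < ((a - l : ℕ) : ℝ) := by exact_mod_cast hal
    have hja : (j : ℝ) ≤ a := by exact_mod_cast h2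
    have e3 : ((j - l : ℕ) : ℝ) * a ≤ j * ((a - l : ℕ) : ℝ) := by
      rw [Nat.cast_sub hl1, Nat.cast_sub hl2]
      have hl0 : (0 : ℝ) ≤ l := Nat.cast_nonneg l
      nlinarith
    have e4 : ((a - (l + 1)).choose (j - (l + 1)) : ℝ) * a ≤ j * ((a - l).choose (j - l) : ℝ) := by
      have hc : (0 : ℝ) ≤ ((a - l).choose (j - l) : ℝ) := Nat.cast_nonneg _
      have h5 : ((a - l : ℕ) : ℝ) * (((a - (l + 1)).choose (j - (l + 1)) : ℝ) * a) ≤
          ((a - l : ℕ) : ℝ) * (j * ((a - l).choose (j - l) : ℝ)) := by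
        rw [← mul_assoc, e2]
        have h6 := mul_le_mul_of_nonneg_left e3 hc
        linarith
      exact le_of_mul_le_mul_left h5 hal'
    have ha0 : (0 : ℝ) ≤ (a : ℝ) ^ l := by positivity
    have hj0 : (0 : ℝ) ≤ (j : ℝ) := Nat.cast_nonneg j
    calc ((a - (l + 1)).choose (j - (l + 1)) : ℝ) * (a : ℝ) ^ (l + 1)
        = (((a - (l + 1)).choose (j - (l + 1)) : ℝ) * a) * (a : ℝ) ^ l := by ring
      _ ≤ (j * ((a - l).choose (j - l) : ℝ)) * (a : ℝ) ^ l := mul_le_mul_of_nonneg_right e4 ha0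
      _ = j * (((a - l).choose (j - l) : ℝ) * (a : ℝ) ^ l) := by ring
      _ ≤ j * ((j : ℝ) ^ l * (a.choose j : ℝ)) := mul_le_mul_of_nonneg_left ih hj0
      _ = (j : ℝ) ^ (l + 1) * (a.choose j : ℝ) := by ring

private theorem bw_side {V : Type} [DecidableEq V] (A L : Finset V) (k : ℕ) {n K : ℝ}
    (hn0 : 0 < n) (hkK : (k : ℝ) ≤ K) (hkA : k ≤ A.card) (hA : k = 0 ∨ n ≤ A.card) :
    (((A.powersetCard k).filter (fun S => L ⊆ S)).card : ℝ) * n ^ L.card ≤
      K ^ L.card * (A.card.choose k : ℝ) := by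
  have hK0 : 0 ≤ K := le_trans (Nat.cast_nonneg k) hkK
  have hR : (0 : ℝ) ≤ K ^ L.card * (A.card.choose k : ℝ) := by positivity
  by_cases hLA : L ⊆ A
  · by_cases hLk : L.card ≤ k
    · rcases hA with hk0 | hnA
      · have hL0 : L.card = 0 := by omega
        rw [hL0, pow_zero, pow_zero, mul_one, one_mul, ← Finset.card_powersetCard]
        exact_mod_cast Finset.card_filter_le _ _
      · have h1 : ((A.powersetCard k).filter (fun S => L ⊆ S)).card ≤
            (A.card - L.card).choose (k - L.card) := by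
          rw [← Finset.card_sdiff_of_subset hLA, ← Finset.card_powersetCard]
          refine Finset.card_le_card_of_injOn (fun S => S \ L) ?_ ?_
          · intro S hS
            have hS' := Finset.mem_filter.1 (Finset.mem_coe.1 hS)
            have hS2 := Finset.mem_powersetCard.1 hS'.1
            refine Finset.mem_coe.2 (Finset.mem_powersetCard.2 ⟨?_, ?_⟩)
            · exact Finset.sdiff_subset_sdiff hS2.1 (Finset.Subset.refl L)
            · rw [Finset.card_sdiff_of_subset hS'.2, hS2.2]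
          · intro S hS S' hS' hSS
            have h2 := (Finset.mem_filter.1 (Finset.mem_coe.1 hS)).2
            have h3 := (Finset.mem_filter.1 (Finset.mem_coe.1 hS')).2
            have h4 : S \ L = S' \ L := hSS
            rw [← Finset.sdiff_union_of_subset h2, h4, Finset.sdiff_union_of_subset h3]
        have h2 := bl_ratio hLk hkA
        have h3 : (((A.powersetCard k).filter (fun S => L ⊆ S)).card : ℝ) ≤
            ((A.card - L.card).choose (k - L.card) : ℝ) := by exact_mod_cast h1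
        have h4 : n ^ L.card ≤ (A.card : ℝ) ^ L.card := pow_le_pow_left₀ hn0.le hnA _
        calc (((A.powersetCard k).filter (fun S => L ⊆ S)).card : ℝ) * n ^ L.card
            ≤ ((A.card - L.card).choose (k - L.card) : ℝ) * (A.card : ℝ) ^ L.card :=
              mul_le_mul h3 h4 (by positivity) (Nat.cast_nonneg _)
          _ ≤ (k : ℝ) ^ L.card * (A.card.choose k : ℝ) := h2
          _ ≤ K ^ L.card * (A.card.choose k : ℝ) :=
              mul_le_mul_of_nonneg_right (pow_le_pow_left₀ (Nat.cast_nonneg k) hkK _)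
                (Nat.cast_nonneg _)
    · have h0 : (A.powersetCard k).filter (fun S => L ⊆ S) = ∅ := by
        rw [Finset.filter_eq_empty_iff]
        intro S hS hLS
        have h1 := Finset.card_le_card hLS
        rw [(Finset.mem_powersetCard.1 hS).2] at h1
        exact hLk h1
      rw [h0, Finset.card_empty, Nat.cast_zero, zero_mul]
      exact hR
  · have h0 : (A.powersetCard k).filter (fun S => L ⊆ S) = ∅ := by
      rw [Finset.filter_eq_empty_iff]
      intro S hS hLS
      exact hLA (hLS.trans (Finset.mem_powersetCard.1 hS).1)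
    rw [h0, Finset.card_empty, Nat.cast_zero, zero_mul]
    exact hR

private theorem bw_inter {V : Type} [DecidableEq V] {A B : Finset V} (hAB : Disjoint A B)
    {S1 S2 : Finset V} (h1 : S1 ⊆ A) (h2 : S2 ⊆ B) :
    (S1 ∪ S2) ∩ A = S1 ∧ (S1 ∪ S2) ∩ B = S2 := by
  constructor
  · ext x
    rw [Finset.mem_inter, Finset.mem_union]
    constructor
    · rintro ⟨hx | hx, hxA⟩
      · exact hx
      · exact absurd (h2 hx) (Finset.disjoint_left.1 hAB hxA)
    · intro hx
      exact ⟨Or.inl hx, h1 hx⟩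
  · ext x
    rw [Finset.mem_inter, Finset.mem_union]
    constructor
    · rintro ⟨hx | hx, hxB⟩
      · exact absurd hxB (Finset.disjoint_left.1 hAB (h1 hx))
      · exact hx
    · intro hx
      exact ⟨Or.inr hx, h2 hx⟩


theorem bl_weight {V : Type} [Fintype V] [DecidableEq V] {A B : Finset V} (hAB : Disjoint A B)
    (k1 k2 : ℕ) {n : ℝ} (hn0 : 0 < n) (hn : ((k1 + k2 : ℕ) : ℝ) ≤ n) (hA : n ≤ A.card)
    (hB : k2 = 0 ∨ n ≤ B.card) :
    ∃ w : Finset V → ℝ, (∀ S, 0 ≤ w S) ∧ ∑ S, w S = 1 ∧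
      (∀ S, w S ≠ 0 → S ⊆ A ∪ B ∧ (S ∩ A).card = k1 ∧ (S ∩ B).card = k2) ∧
      ∀ L : Finset V, ∑ T ∈ univ.filter (fun T => L ⊆ T), w T ≤
        (((k1 + k2 : ℕ) : ℝ) / n) ^ L.card := by
  classical
  have hkk : ((k1 + k2 : ℕ) : ℝ) = (k1 : ℝ) + k2 := by push_cast; ring
  have hk1 : (k1 : ℝ) ≤ ((k1 + k2 : ℕ) : ℝ) := by
    rw [hkk]
    have : (0 : ℝ) ≤ k2 := Nat.cast_nonneg _
    linarith
  have hk2 : (k2 : ℝ) ≤ ((k1 + k2 : ℕ) : ℝ) := by
    rw [hkk]
    have : (0 : ℝ) ≤ k1 := Nat.cast_nonneg _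
    linarith
  have hkA : k1 ≤ A.card := by
    have : (k1 : ℝ) ≤ A.card := by linarith
    exact_mod_cast this
  have hkB : k2 ≤ B.card := by
    rcases hB with h | h
    · omega
    · have : (k2 : ℝ) ≤ B.card := by linarith
      exact_mod_cast this
  obtain ⟨F, hF⟩ : ∃ F : Finset (Finset V), F =
      ((A.powersetCard k1) ×ˢ (B.powersetCard k2)).image (fun p => p.1 ∪ p.2) := ⟨_, rfl⟩
  have hFmem : ∀ S ∈ F, ∃ S1 S2, S1 ⊆ A ∧ S1.card = k1 ∧ S2 ⊆ B ∧ S2.card = k2 ∧
      S = S1 ∪ S2 := by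
    intro S hS
    rw [hF, Finset.mem_image] at hS
    obtain ⟨⟨S1, S2⟩, hp, rfl⟩ := hS
    rw [Finset.mem_product] at hp
    have h1 := Finset.mem_powersetCard.1 hp.1
    have h2 := Finset.mem_powersetCard.1 hp.2
    exact ⟨S1, S2, h1.1, h1.2, h2.1, h2.2, rfl⟩
  have hFcard : F.card = A.card.choose k1 * B.card.choose k2 := by
    rw [hF, Finset.card_image_of_injOn, Finset.card_product, Finset.card_powersetCard,
      Finset.card_powersetCard]
    rintro ⟨S1, S2⟩ hp ⟨T1, T2⟩ hq heq
    have hp' := Finset.mem_product.1 (Finset.mem_coe.1 hp)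
    have hq' := Finset.mem_product.1 (Finset.mem_coe.1 hq)
    have a1 : (S1 ∪ S2) ∩ A = S1 ∧ (S1 ∪ S2) ∩ B = S2 := bw_inter hAB
      (Finset.mem_powersetCard.1 hp'.1).1 (Finset.mem_powersetCard.1 hp'.2).1
    have a2 : (T1 ∪ T2) ∩ A = T1 ∧ (T1 ∪ T2) ∩ B = T2 := bw_inter hAB
      (Finset.mem_powersetCard.1 hq'.1).1 (Finset.mem_powersetCard.1 hq'.2).1
    have heq' : S1 ∪ S2 = T1 ∪ T2 := heq
    have b1 : S1 = T1 := a1.1.symm.trans ((congrArg (fun X => X ∩ A) heq').trans a2.1)
    have b2 : S2 = T2 := a1.2.symm.trans ((congrArg (fun X => X ∩ B) heq').trans a2.2)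
    rw [b1, b2]
  obtain ⟨c, hc⟩ : ∃ c : ℝ, c = (A.card.choose k1 : ℝ) * (B.card.choose k2 : ℝ) := ⟨_, rfl⟩
  have hc0 : 0 < c := by
    rw [hc]
    have h1 : 0 < A.card.choose k1 := Nat.choose_pos hkA
    have h2 : 0 < B.card.choose k2 := Nat.choose_pos hkB
    have h1' : (0 : ℝ) < (A.card.choose k1 : ℝ) := by exact_mod_cast h1
    have h2' : (0 : ℝ) < (B.card.choose k2 : ℝ) := by exact_mod_cast h2
    exact mul_pos h1' h2'
  have hFc : (F.card : ℝ) = c := by
    rw [hFcard, hc]
    push_cast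
    rfl
  refine ⟨fun S => if S ∈ F then c⁻¹ else 0, ?_, ?_, ?_, ?_⟩
  · intro S
    show 0 ≤ if S ∈ F then c⁻¹ else 0
    split_ifs
    · exact (inv_pos.2 hc0).le
    · exact le_refl _
  · show ∑ S, (if S ∈ F then c⁻¹ else 0) = 1
    rw [← Finset.sum_filter, Finset.sum_const, Finset.filter_mem_eq_inter, Finset.univ_inter,
      nsmul_eq_mul, hFc, mul_inv_cancel₀ hc0.ne']
  · intro S hS
    have hSF : S ∈ F := by
      by_contra h
      apply hS
      show (if S ∈ F then c⁻¹ else 0) = 0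
      rw [if_neg h]
    obtain ⟨S1, S2, h1, h2, h3, h4, rfl⟩ := hFmem S hSF
    have a1 := bw_inter hAB h1 h3
    refine ⟨Finset.union_subset_union h1 h3, ?_, ?_⟩
    · rw [a1.1, h2]
    · rw [a1.2, h4]
  · intro L
    show ∑ T ∈ univ.filter (fun T => L ⊆ T), (if T ∈ F then c⁻¹ else 0) ≤ _
    rw [← Finset.sum_filter, Finset.sum_const, nsmul_eq_mul]
    have hK0 : (0 : ℝ) ≤ ((k1 + k2 : ℕ) : ℝ) := Nat.cast_nonneg _
    by_cases hLAB : L ⊆ A ∪ B
    · have hcard : (((univ.filter (fun T => L ⊆ T)).filter (fun T => T ∈ F)).card : ℝ) ≤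
          (((A.powersetCard k1).filter (fun S => L ∩ A ⊆ S)).card : ℝ) *
            (((B.powersetCard k2).filter (fun S => L ∩ B ⊆ S)).card : ℝ) := by
        have h1 : ((univ.filter (fun T => L ⊆ T)).filter (fun T => T ∈ F)) ⊆
            (((A.powersetCard k1).filter (fun S => L ∩ A ⊆ S)) ×ˢ
              ((B.powersetCard k2).filter (fun S => L ∩ B ⊆ S))).image
                (fun p : Finset V × Finset V => p.1 ∪ p.2) := by
          intro T hT
          rw [Finset.mem_filter, Finset.mem_filter] at hT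
          obtain ⟨S1, S2, h1, h2, h3, h4, rfl⟩ := hFmem T hT.2
          have a1 := bw_inter hAB h1 h3
          refine Finset.mem_image.2 ⟨(S1, S2), Finset.mem_product.2 ⟨?_, ?_⟩, rfl⟩
          · refine Finset.mem_filter.2 ⟨Finset.mem_powersetCard.2 ⟨h1, h2⟩, ?_⟩
            show L ∩ A ⊆ S1
            rw [← a1.1]
            exact Finset.inter_subset_inter_right hT.1.2
          · refine Finset.mem_filter.2 ⟨Finset.mem_powersetCard.2 ⟨h3, h4⟩, ?_⟩
            show L ∩ B ⊆ S2
            rw [← a1.2]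
            exact Finset.inter_subset_inter_right hT.1.2
        have h2 := (Finset.card_le_card h1).trans Finset.card_image_le
        rw [Finset.card_product] at h2
        exact_mod_cast h2
      have hLc : L.card = (L ∩ A).card + (L ∩ B).card := by
        have h1 : Disjoint (L ∩ A) (L ∩ B) :=
          Finset.disjoint_of_subset_left Finset.inter_subset_right
            (Finset.disjoint_of_subset_right Finset.inter_subset_right hAB)
        rw [← Finset.card_union_of_disjoint h1, ← Finset.inter_union_distrib_left,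
          Finset.inter_eq_left.2 hLAB]
      have s1 := bw_side A (L ∩ A) k1 hn0 hk1 hkA (Or.inr hA)
      have s2 := bw_side B (L ∩ B) k2 hn0 hk2 hkB hB
      rw [div_pow, le_div_iff₀ (pow_pos hn0 _), mul_assoc, mul_comm c⁻¹, ← mul_assoc,
        ← div_eq_mul_inv, div_le_iff₀ hc0, hLc, pow_add, pow_add, hc]
      calc (((univ.filter (fun T => L ⊆ T)).filter (fun T => T ∈ F)).card : ℝ) *
            (n ^ (L ∩ A).card * n ^ (L ∩ B).card)
          ≤ ((((A.powersetCard k1).filter (fun S => L ∩ A ⊆ S)).card : ℝ) *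
            (((B.powersetCard k2).filter (fun S => L ∩ B ⊆ S)).card : ℝ)) *
            (n ^ (L ∩ A).card * n ^ (L ∩ B).card) :=
            mul_le_mul_of_nonneg_right hcard (by positivity)
        _ = ((((A.powersetCard k1).filter (fun S => L ∩ A ⊆ S)).card : ℝ) * n ^ (L ∩ A).card) *
            ((((B.powersetCard k2).filter (fun S => L ∩ B ⊆ S)).card : ℝ) *
              n ^ (L ∩ B).card) := by ring
        _ ≤ (((k1 + k2 : ℕ) : ℝ) ^ (L ∩ A).card * (A.card.choose k1 : ℝ)) *
            (((k1 + k2 : ℕ) : ℝ) ^ (L ∩ B).card * (B.card.choose k2 : ℝ)) :=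
            mul_le_mul s1 s2 (by positivity) (by positivity)
        _ = _ := by ring
    · have h0 : (univ.filter (fun T => L ⊆ T)).filter (fun T => T ∈ F) = ∅ := by
        rw [Finset.filter_eq_empty_iff]
        intro T hT hTF
        rw [Finset.mem_filter] at hT
        obtain ⟨S1, S2, h1, h2, h3, h4, rfl⟩ := hFmem T hTF
        exact hLAB (hT.2.trans (Finset.union_subset_union h1 h3))
      rw [h0, Finset.card_empty, Nat.cast_zero, zero_mul]
      exact pow_nonneg (div_nonneg hK0 hn0.le) _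


end Pool.Agent.BLK
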